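import Mathlib

/-!
The hairy ball theorem on the two-sphere, and its transport along a homotopy of nowhere
vanishing maps.
-/

namespace Pool.Agent.P.MP_260cc8_ag

open Complex Real

/-- A continuous function on the line whose exponential is constant is constant. -/
theorem const_of_exp_const (L : ℝ → ℂ) (hL : Continuous L) (c : ℂ)
    (h : ∀ t, cexp (L t) = c) (s t : ℝ) : L s = L t := by
  have hdisc : ∀ u, ∃ n : ℤ, L u = L 0 + n * (2 * π * I) := fun u =>
    Complex.exp_eq_exp_iff_exists_int.mp (by rw [h, h])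
  choose n hn using hdisc
  have h2 : (2 * π * I : ℂ) ≠ 0 := Complex.two_pi_I_ne_zero
  have hcont : Continuous fun u => ((n u : ℤ) : ℂ) := by
    have : (fun u => ((n u : ℤ) : ℂ)) = fun u => (L u - L 0) / (2 * π * I) := by
      funext u
      rw [hn u]
      field_simp
      ring
    rw [this]
    fun_prop
  have hemb : Topology.IsClosedEmbedding ((↑) : ℤ → ℂ) := Complex.isClosedEmbedding_intCast
  have hn' : Continuous n := hemb.isEmbedding.continuous_iff.mpr hcont
  have : n s = n t := (IsLocallyConstant.iff_continuous n).mpr hn' |>.apply_eq_of_preconnectedSpace s t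
  rw [hn s, hn t, this]

/-- Hairy ball theorem: a continuous vector field on space is parallel to the position vector at
some point of the unit sphere. -/
theorem hairy (w : (Fin 3 → ℝ) → (Fin 3 → ℝ)) (hw : Continuous w) :
    ∃ p : Fin 3 → ℝ, p ⬝ᵥ p = 1 ∧ ∃ c : ℝ, w p = c • p := by
  by_contra hcon
  push Not at hcon
  let P : ℝ × ℝ → (Fin 3 → ℝ) := fun x =>
    ![Real.sin x.1 * Real.cos x.2, Real.sin x.1 * Real.sin x.2, Real.cos x.1]
  have hP : Continuous P := by
    refine continuous_pi fun i => ?_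
    fin_cases i <;> simp [P] <;> fun_prop
  have hP1 : ∀ x, P x ⬝ᵥ P x = 1 := by
    intro x
    simp only [P, dotProduct, Fin.sum_univ_three, Matrix.cons_val_zero, Matrix.cons_val_one,
      Matrix.cons_val]
    have h1 := Real.sin_sq_add_cos_sq x.1
    have h2 := Real.sin_sq_add_cos_sq x.2
    linear_combination (Real.sin x.1) ^ 2 * h2 + h1
  let A : ℝ × ℝ → ℝ := fun x => w (P x) 0 * (Real.cos x.1 * Real.cos x.2) +
    w (P x) 1 * (Real.cos x.1 * Real.sin x.2) - w (P x) 2 * Real.sin x.1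
  let B : ℝ × ℝ → ℝ := fun x => - w (P x) 0 * Real.sin x.2 + w (P x) 1 * Real.cos x.2
  have hwP : ∀ i, Continuous fun x => w (P x) i := fun i =>
    (continuous_apply i).comp (hw.comp hP)
  have hA : Continuous A := by
    have h0 := hwP 0
    have h1 := hwP 1
    have h2 := hwP 2
    simp only [A]
    fun_prop
  have hB : Continuous B := by
    have h0 := hwP 0
    have h1 := hwP 1
    simp only [B]
    fun_prop
  let Z : C(ℝ × ℝ, ℂ) := ⟨fun x => (A x : ℂ) + (B x : ℂ) * I, by fun_prop⟩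
  have hZ : ∀ x, Z x ∈ ({0}ᶜ : Set ℂ) := by
    intro x hx
    have hx' : (A x : ℂ) + (B x : ℂ) * I = 0 := hx
    have hre := congrArg Complex.re hx'
    have him := congrArg Complex.im hx'
    simp at hre him
    apply hcon (P x) (hP1 x) (w (P x) ⬝ᵥ P x)
    have h1 := Real.sin_sq_add_cos_sq x.1
    have h2 := Real.sin_sq_add_cos_sq x.2
    simp only [A, B] at hre him
    funext i
    fin_cases i
    · simp only [P, dotProduct, Fin.sum_univ_three, Matrix.cons_val_zero, Matrix.cons_val_one,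
        Matrix.cons_val, Pi.smul_apply, smul_eq_mul, Fin.zero_eta] at hre him ⊢
      linear_combination (Real.cos x.1 * Real.cos x.2) * hre - Real.sin x.2 * him
        - w (P x) 0 * (Real.cos x.2) ^ 2 * h1 - w (P x) 0 * h2
        - w (P x) 1 * Real.sin x.2 * Real.cos x.2 * h1
    · simp only [P, dotProduct, Fin.sum_univ_three, Matrix.cons_val_zero, Matrix.cons_val_one,
        Matrix.cons_val, Pi.smul_apply, smul_eq_mul, Fin.mk_one] at hre him ⊢
      linear_combination (Real.cos x.1 * Real.sin x.2) * hre + Real.cos x.2 * him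
        - w (P x) 1 * (Real.sin x.2) ^ 2 * h1 - w (P x) 1 * h2
        - w (P x) 0 * Real.sin x.2 * Real.cos x.2 * h1
    · simp only [P, dotProduct, Fin.sum_univ_three, Matrix.cons_val_zero, Matrix.cons_val_one,
        Matrix.cons_val, Pi.smul_apply, smul_eq_mul, Fin.reduceFinMk] at hre him ⊢
      linear_combination (- Real.sin x.1) * hre - w (P x) 2 * h1
  obtain ⟨L, ⟨-, hL⟩, -⟩ := Complex.isCoveringMapOn_exp.existsUnique_continuousMap_lifts Z
    (a₀ := (0, 0)) (e₀ := Complex.log (Z (0, 0))) (Complex.exp_log (hZ _)) hZ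
  have hLZ : ∀ x, cexp (L x) = Z x := fun x => congrFun hL x
  have hLc : Continuous L := L.continuous
  -- the jump along a circle of latitude does not depend on the latitude
  have hjump : L (0, 2 * π) - L (0, 0) = L (π, 2 * π) - L (π, 0) := by
    refine const_of_exp_const (fun t => L (t, 2 * π) - L (t, 0)) (by fun_prop) 1 (fun t => ?_) 0 π
    rw [Complex.exp_sub, hLZ, hLZ]
    have : Z (t, 2 * π) = Z (t, 0) := by
      simp [Z, A, B, P]
    rw [this]
    exact div_self (hZ _)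
  have hN : L (0, 2 * π) + ((2 * π : ℝ) : ℂ) * I = L (0, 0) + ((0 : ℝ) : ℂ) * I := by
    refine const_of_exp_const (fun t => L (0, t) + (t : ℂ) * I) (by fun_prop)
      (w ![0, 0, 1] 0 + w ![0, 0, 1] 1 * I) (fun t => ?_) (2 * π) 0
    rw [Complex.exp_add, hLZ, Complex.exp_mul_I, ← Complex.ofReal_cos, ← Complex.ofReal_sin]
    have h2 := Real.sin_sq_add_cos_sq t
    apply Complex.ext
    · simp [Z, A, B, P, -Complex.ofReal_cos, -Complex.ofReal_sin]
      linear_combination (w ![0, 0, 1] 0) * h2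
    · simp [Z, A, B, P, -Complex.ofReal_cos, -Complex.ofReal_sin]
      linear_combination (w ![0, 0, 1] 1) * h2
  have hS : L (π, 2 * π) - ((2 * π : ℝ) : ℂ) * I = L (π, 0) - ((0 : ℝ) : ℂ) * I := by
    refine const_of_exp_const (fun t => L (π, t) - (t : ℂ) * I) (by fun_prop)
      (- w ![0, 0, -1] 0 + w ![0, 0, -1] 1 * I) (fun t => ?_) (2 * π) 0
    have e : L (π, t) - (t : ℂ) * I = L (π, t) + ((-t : ℝ) : ℂ) * I := by
      push_cast
      ring
    rw [e, Complex.exp_add, hLZ, Complex.exp_mul_I, ← Complex.ofReal_cos, ← Complex.ofReal_sin]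
    have h2 := Real.sin_sq_add_cos_sq t
    apply Complex.ext
    · simp [Z, A, B, P, -Complex.ofReal_cos, -Complex.ofReal_sin]
      linear_combination (- w ![0, 0, -1] 0) * h2
    · simp [Z, A, B, P, -Complex.ofReal_cos, -Complex.ofReal_sin]
      linear_combination (w ![0, 0, -1] 1) * h2
  have h2 : (2 * π * I : ℂ) ≠ 0 := Complex.two_pi_I_ne_zero
  apply h2
  push_cast at hN hS
  linear_combination (1 / 2 : ℂ) * (hN - hS - hjump)

theorem isCompact_sph : IsCompact {p : Fin 3 → ℝ | p ⬝ᵥ p = 1} := by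
  refine IsCompact.of_isClosed_subset (isCompact_Icc (a := fun _ => -1) (b := fun _ => 1))
    (isClosed_eq (by fun_prop) continuous_const) ?_
  intro p hp
  simp only [Set.mem_ofPred_eq, dotProduct, Fin.sum_univ_three] at hp
  constructor
  · intro i
    fin_cases i <;> simp <;> nlinarith [sq_nonneg (p 0), sq_nonneg (p 1), sq_nonneg (p 2),
      sq_nonneg (p 0 + 1), sq_nonneg (p 1 + 1), sq_nonneg (p 2 + 1)]
  · intro i
    fin_cases i <;> simp <;> nlinarith [sq_nonneg (p 0), sq_nonneg (p 1), sq_nonneg (p 2),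
      sq_nonneg (p 0 - 1), sq_nonneg (p 1 - 1), sq_nonneg (p 2 - 1)]

/-- A field transversal to `g` on the sphere gives one transversal to any `g'` at an acute angle
with `g`. -/
theorem transport_step (g g' : (Fin 3 → ℝ) → (Fin 3 → ℝ)) (hg : Continuous g)
    (hpos : ∀ p, p ⬝ᵥ p = 1 → 0 < g p ⬝ᵥ g' p)
    (h : ∃ a : (Fin 3 → ℝ) → (Fin 3 → ℝ), Continuous a ∧
      ∀ p, p ⬝ᵥ p = 1 → ∀ c : ℝ, a p ≠ c • g p) :
    ∃ a : (Fin 3 → ℝ) → (Fin 3 → ℝ), Continuous a ∧
      ∀ p, p ⬝ᵥ p = 1 → ∀ c : ℝ, a p ≠ c • g' p := by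
  obtain ⟨a, ha, h⟩ := h
  refine ⟨fun p => (g p ⬝ᵥ g p) • a p - (a p ⬝ᵥ g p) • g p, by fun_prop, fun p hp c hc => ?_⟩
  have hgg : g p ⬝ᵥ g p ≠ 0 := by
    intro h0
    have := dotProduct_self_eq_zero.mp h0
    have h1 := hpos p hp
    rw [this] at h1
    simp at h1
  have h1 : ((g p ⬝ᵥ g p) • a p - (a p ⬝ᵥ g p) • g p) ⬝ᵥ g p = 0 := by
    simp only [sub_dotProduct, smul_dotProduct, smul_eq_mul]
    ring
  have hc' : (g p ⬝ᵥ g p) • a p - (a p ⬝ᵥ g p) • g p = c • g' p := hc
  rw [hc', smul_dotProduct, smul_eq_mul, dotProduct_comm] at h1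
  have hc0 : c = 0 := by
    rcases mul_eq_zero.mp h1 with h2 | h2
    · exact h2
    · exact absurd h2 (hpos p hp).ne'
  rw [hc0, zero_smul, sub_eq_zero] at hc'
  apply h p hp ((g p ⬝ᵥ g p)⁻¹ * (a p ⬝ᵥ g p))
  rw [mul_smul, ← hc', smul_smul, inv_mul_cancel₀ hgg, one_smul]

/-- Hairy ball theorem for maps homotopic, through nowhere vanishing maps, to the identity. -/
theorem hairy_homotopy (G : ℝ → (Fin 3 → ℝ) → (Fin 3 → ℝ))
    (hG : Continuous fun x : ℝ × (Fin 3 → ℝ) => G x.1 x.2)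
    (hne : ∀ t p, p ⬝ᵥ p = 1 → G t p ≠ 0) (H : Matrix (Fin 3) (Fin 3) ℝ) (hH : H.det ≠ 0)
    (h0 : ∀ p, p ⬝ᵥ p = 1 → H.mulVec (G 0 p) = p)
    (a : (Fin 3 → ℝ) → (Fin 3 → ℝ)) (ha : Continuous a) :
    ∃ p : Fin 3 → ℝ, p ⬝ᵥ p = 1 ∧ ∃ c : ℝ, a p = c • G 1 p := by
  by_contra hcon
  push Not at hcon
  let Q : ℝ → Prop := fun t => ∃ a : (Fin 3 → ℝ) → (Fin 3 → ℝ), Continuous a ∧
      ∀ p, p ⬝ᵥ p = 1 → ∀ c : ℝ, a p ≠ c • G t p
  have hGt : ∀ t, Continuous (G t) := fun t =>
    hG.comp (f := fun p => (t, p)) (by fun_prop)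
  have hloc : IsLocallyConstant Q := by
    rw [IsLocallyConstant.iff_eventually_eq]
    intro t0
    have hev : ∀ᶠ t in nhds t0, ∀ p ∈ {p : Fin 3 → ℝ | p ⬝ᵥ p = 1}, 0 < G t p ⬝ᵥ G t0 p := by
      refine isCompact_sph.eventually_forall_of_forall_eventually fun p hp => ?_
      have hc : Continuous fun x : ℝ × (Fin 3 → ℝ) => G x.1 x.2 ⬝ᵥ G t0 x.2 := by
        have h2 : Continuous fun x : ℝ × (Fin 3 → ℝ) => G t0 x.2 := (hGt t0).comp continuous_snd
        exact hG.dotProduct h2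
      have hp0 : 0 < G t0 p ⬝ᵥ G t0 p :=
        lt_of_le_of_ne (Finset.sum_nonneg fun i _ => mul_self_nonneg _)
          (fun h => hne t0 p hp (dotProduct_self_eq_zero.mp h.symm))
      exact hc.continuousAt.eventually (lt_mem_nhds hp0)
    filter_upwards [hev] with t ht
    apply propext
    constructor
    · exact transport_step (G t) (G t0) (hGt t) (fun p hp => ht p hp)
    · exact transport_step (G t0) (G t) (hGt t0)
        (fun p hp => by rw [dotProduct_comm]; exact ht p hp)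
  have h1 : Q 1 := ⟨a, ha, hcon⟩
  rw [hloc.apply_eq_of_preconnectedSpace 1 0] at h1
  obtain ⟨b, hb, hb'⟩ := h1
  obtain ⟨p, hp, c, hc⟩ := hairy (fun p => H.mulVec (b p)) (by fun_prop)
  apply hb' p hp c
  have hinj : Function.Injective H.mulVec :=
    Matrix.mulVec_injective_iff_isUnit.mpr
      ((Matrix.isUnit_iff_isUnit_det H).mpr (isUnit_iff_ne_zero.mpr hH))
  apply hinj
  rw [Matrix.mulVec_smul, h0 p hp]
  exact hc

end Pool.Agent.P.MP_260cc8_ag
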