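import Pool.Agent.P.MP_260cc8_ag.ShDeg

/-!
A hairy ball statement in odd dimension: a smooth field with a single nondegenerate zero in a
compact set is somewhere on its rim proportional to any other smooth field.
-/

open MeasureTheory Set Metric Filter Topology Module

namespace Pool.Agent.P.MP_260cc8_ag.Sh

variable {m : ℕ}

theorem seg {K U : Set (E m)} (hK : IsCompact K) (hU : IsOpen U) (hUK : U ⊆ K)
    {g a : E m → E m} (hg : ContDiff ℝ 1 g) (ha : ContDiff ℝ 1 a)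
    (hg0 : ∀ p ∈ K \ U, g p ≠ 0) (h : ∀ p ∈ K \ U, ∀ c : ℝ, a p ≠ c • g p) :
    ∃ r₀ : ℝ, 0 < r₀ ∧ ∀ r ≤ r₀, ∀ ρ : E m → ℝ, Wt r ρ →
      ∫ x in K, ρ (g x) * (fderiv ℝ g x).det = ∫ x in K, ρ (a x) * (fderiv ℝ a x).det := by
  have hgc := hg.continuous
  have hac := ha.continuous
  have hN : Continuous fun z : E m × ℝ => ‖g z.1 + z.2 • (a z.1 - g z.1)‖ := by fun_prop
  have hS : IsCompact ((K \ U) ×ˢ Icc (0 : ℝ) 1) := (hK.diff hU).prod isCompact_Icc
  obtain ⟨b, hb, hbS⟩ := hS.exists_forall_le' (a := 0) hN.continuousOn (by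
    rintro ⟨p, t⟩ ⟨hp, -⟩
    refine norm_pos_iff.mpr fun h0 => ?_
    dsimp only at h0 hp
    by_cases ht : t = 0
    · subst ht
      exact hg0 p hp (by simpa using h0)
    · apply h p hp (1 - t⁻¹)
      have h1 : t • a p = t • ((1 - t⁻¹) • g p) := by
        rw [smul_smul, mul_sub, mul_inv_cancel₀ ht, mul_one, sub_smul, one_smul]
        rw [smul_sub] at h0
        rw [← sub_eq_zero, ← h0]
        abel
      exact smul_right_injective _ ht h1)
  refine ⟨b / 2, by positivity, fun r hr ρ hρ => ?_⟩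
  let V : Set (E m) := {x | ∀ t ∈ Icc (0 : ℝ) 1, b / 2 < ‖g x + t • (a x - g x)‖}
  have hV : IsOpen V := by
    rw [isOpen_iff_mem_nhds]
    intro x hx
    refine isCompact_Icc.eventually_forall_of_forall_eventually
      (P := fun (y : E m) (t : ℝ) => b / 2 < ‖g y + t • (a y - g y)‖) fun t ht => ?_
    exact (isOpen_lt continuous_const hN).mem_nhds (hx t ht)
  refine inv_smooth hρ hg ha hK (hU.union hV) (O := U ∪ V) ?_ ?_
  · intro x hx
    by_cases h1 : x ∈ U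
    · exact Or.inl h1
    · refine Or.inr fun t ht => ?_
      have := hbS (x, t) ⟨⟨hx, h1⟩, ht⟩
      dsimp only at this
      linarith
  · rintro x (hx | hx) hx' t ht
    · exact absurd (hUK hx) hx'
    · exact hr.trans (hx t ht).le

theorem sign_small {K : Set (E m)} (hK : IsCompact K) {p₀ : E m} (hp₀ : K ∈ 𝓝 p₀)
    {g : E m → E m} (hg : ContDiff ℝ 1 g) (h0 : g p₀ = 0)
    (hne : ∀ x ∈ K, x ≠ p₀ → g x ≠ 0) (σ : ℝ) (hσ : 0 < σ * (fderiv ℝ g p₀).det) :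
    ∃ r₁ : ℝ, 0 < r₁ ∧ ∀ r ≤ r₁, ∀ ρ : E m → ℝ, Wt r ρ →
      0 < σ * ∫ x in K, ρ (g x) * (fderiv ℝ g x).det := by
  have hgc := hg.continuous
  have hdc := continuous_det_fderiv hg
  have hU : IsOpen {x : E m | 0 < σ * (fderiv ℝ g x).det} :=
    isOpen_lt continuous_const (continuous_const.mul hdc)
  have hS : IsCompact (K \ {x : E m | 0 < σ * (fderiv ℝ g x).det}) := hK.diff hU
  obtain ⟨b, hb, hbS⟩ := hS.exists_forall_le' (a := 0) (f := fun x => ‖g x‖)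
    hgc.norm.continuousOn (by
      rintro x ⟨hxK, hx⟩
      refine norm_pos_iff.mpr (hne x hxK ?_)
      rintro rfl
      exact hx hσ)
  refine ⟨b, hb, fun r hr ρ hρ => ?_⟩
  rw [← integral_const_mul]
  have hφ : Continuous fun x => σ * (ρ (g x) * (fderiv ℝ g x).det) :=
    continuous_const.mul ((hρ.cont.comp hgc).mul hdc)
  rw [setIntegral_pos_iff_support_of_nonneg_ae ?_ (hφ.continuousOn.integrableOn_compact hK)]
  · refine Measure.measure_pos_of_mem_nhds (μ := volume) (x := p₀) ?_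
    refine inter_mem ?_ hp₀
    refine hφ.isOpen_support.mem_nhds ?_
    rw [Function.mem_support, h0, mul_left_comm]
    exact (mul_pos hρ.pos hσ).ne'
  · refine (ae_restrict_iff' hK.measurableSet).mpr (Eventually.of_forall fun x hx => ?_)
    show (0 : ℝ) ≤ σ * (ρ (g x) * (fderiv ℝ g x).det)
    by_cases h1 : 0 < σ * (fderiv ℝ g x).det
    · rw [mul_left_comm]
      exact mul_nonneg (hρ.nonneg _) h1.le
    · rw [hρ.supp _ (hr.trans (hbS x ⟨hx, h1⟩))]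
      simp

theorem hairy_gen (hm : Odd m) {K U : Set (E m)} (hK : IsCompact K) (hU : IsOpen U) (hUK : U ⊆ K)
    {p₀ : E m} (hp₀ : p₀ ∈ U) {g a : E m → E m} (hg : ContDiff ℝ 1 g) (ha : ContDiff ℝ 1 a)
    (h0 : g p₀ = 0) (hne : ∀ x ∈ K, x ≠ p₀ → g x ≠ 0) (hdet : (fderiv ℝ g p₀).det ≠ 0) :
    ∃ p ∈ K \ U, ∃ c : ℝ, a p = c • g p := by
  by_contra hcon
  have h : ∀ p ∈ K \ U, ∀ c : ℝ, a p ≠ c • g p := fun p hp c hc => hcon ⟨p, hp, c, hc⟩
  have hs : ∀ p ∈ K \ U, g p ≠ 0 := fun p hp => hne p hp.1 (by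
    rintro rfl
    exact hp.2 hp₀)
  have hn : K ∈ 𝓝 p₀ := mem_of_superset (hU.mem_nhds hp₀) hUK
  have hg' : ContDiff ℝ 1 (fun x => -g x) := hg.neg
  obtain ⟨r₁, h₁, H₁⟩ := seg hK hU hUK hg ha hs h
  obtain ⟨r₂, h₂, H₂⟩ := seg hK hU hUK hg' ha (fun p hp => neg_ne_zero.mpr (hs p hp))
    (fun p hp c hc => h p hp (-c) (by rw [hc, smul_neg, neg_smul]))
  obtain ⟨r₃, h₃, H₃⟩ := sign_small hK hn hg h0 hne _ (mul_self_pos.mpr hdet)
  have hd : (fderiv ℝ (fun x => -g x) p₀).det = -(fderiv ℝ g p₀).det := by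
    rw [fderiv_fun_neg, ← neg_one_smul ℝ (fderiv ℝ g p₀)]
    unfold ContinuousLinearMap.det
    rw [ContinuousLinearMap.toLinearMap_smul, LinearMap.det_smul, finrank_euclideanSpace_fin,
      hm.neg_one_pow, neg_one_mul]
  obtain ⟨r₄, h₄, H₄⟩ := sign_small hK hn hg' (by simp [h0])
    (fun x hx hx' => neg_ne_zero.mpr (hne x hx hx'))
    (-(fderiv ℝ g p₀).det) (by rw [hd, neg_mul_neg]; exact mul_self_pos.mpr hdet)
  obtain ⟨ρ, hρ⟩ := exists_wt (n := m) (r := min (min r₁ r₂) (min r₃ r₄))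
    (lt_min (lt_min h₁ h₂) (lt_min h₃ h₄))
  have e₁ := H₁ _ ((min_le_left _ _).trans (min_le_left _ _)) ρ hρ
  have e₂ := H₂ _ ((min_le_left _ _).trans (min_le_right _ _)) ρ hρ
  have e₃ := H₃ _ ((min_le_right _ _).trans (min_le_left _ _)) ρ hρ
  have e₄ := H₄ _ ((min_le_right _ _).trans (min_le_right _ _)) ρ hρ
  rw [e₂, ← e₁] at e₄
  linarith

theorem det_ne {g : E m → E m} (hg : ContDiff ℝ 1 g) (H : Fin m → Fin m → E m → ℝ)
    (hH : ∀ j i, ContDiff ℝ 1 (H j i)) (n : Fin m → E m → ℝ) (hn : ∀ j, ContDiff ℝ 1 (n j))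
    {p₀ : E m} (g0 : g p₀ = 0) (hn0 : ∀ j, n j p₀ ≠ 0)
    (h : ∀ (x : E m) j, ∑ i, H j i x * g x i = n j x * (x j - p₀ j)) :
    (fderiv ℝ g p₀).det ≠ 0 := by
  unfold ContinuousLinearMap.det
  rw [Ne, LinearMap.det_eq_zero_iff_ker_ne_bot, not_not, LinearMap.ker_eq_bot']
  intro v hv
  have hv' : fderiv ℝ g p₀ v = 0 := hv
  ext j
  have hgd : HasFDerivAt g (fderiv ℝ g p₀) p₀ := (hg.differentiable one_ne_zero p₀).hasFDerivAt
  have h1 : ∀ i, HasFDerivAt (fun x => g x i)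
      ((EuclideanSpace.proj i : E m →L[ℝ] ℝ).comp (fderiv ℝ g p₀)) p₀ := fun i =>
    (EuclideanSpace.proj i : E m →L[ℝ] ℝ).hasFDerivAt.comp p₀ hgd
  have h2 : ∀ i, HasFDerivAt (H j i) (fderiv ℝ (H j i) p₀) p₀ := fun i =>
    ((hH j i).differentiable one_ne_zero p₀).hasFDerivAt
  have h3 := HasFDerivAt.fun_sum (u := Finset.univ) fun i _ => (h2 i).fun_mul (h1 i)
  have h6 : HasFDerivAt (fun x : E m => x j - p₀ j) (EuclideanSpace.proj j : E m →L[ℝ] ℝ) p₀ :=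
    (EuclideanSpace.proj j : E m →L[ℝ] ℝ).hasFDerivAt.sub_const _
  have h4 := (((hn j).differentiable one_ne_zero p₀).hasFDerivAt).fun_mul h6
  simp only [h] at h3
  have h5 := DFunLike.congr_fun (h4.unique h3) v
  simpa [hv', g0, hn0 j] using h5

end Pool.Agent.P.MP_260cc8_ag.Sh
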