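import Pool.Agent.P.MP_260cc8_ag.ShPr

/-!
The conormal module of the ideal is free of rank `d+1`.
-/

namespace Pool.Agent.P.MP_260cc8_ag.Sh

open MvPolynomial

variable (k : Type) [Field k] (d : ℕ)

noncomputable def la : A k d := algebraMap k _ 63⁻¹ * (10 * τ k d ^ 2 + 17 * τ k d - 11)

noncomputable def mu : A k d := algebraMap k _ 63⁻¹ * (20 * τ k d - 6)

theorem sum_ee : ∑ j, uu k d j * ee k d j = PA k d - τ k d * NA k d := by
  simp only [PA, NA, ee, Finset.mul_sum, ← Finset.sum_sub_distrib]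
  exact Finset.sum_congr rfl fun j _ => by ring

theorem pd_u (i : Fin (d + 1)) (j : Fin d) : pderiv (Fin.castAdd d i) (uu k d j) = 0 := by
  rw [uu, pderiv_X, Pi.single_apply, if_neg]
  intro h
  have := congrArg Fin.val h
  simp only [Fin.val_castAdd, Fin.val_natAdd] at this
  omega

theorem pd_y0 (i : Fin (d + 1)) :
    pderiv (Fin.castAdd d i) (y0 k d) = if 0 = i then 1 else 0 := by
  rw [y0, pderiv_X, Pi.single_apply]
  simp only [Fin.castAdd_inj]

theorem pd_yy (i : Fin (d + 1)) (j : Fin d) :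
    pderiv (Fin.castAdd d i) (yy k d j) = if j.succ = i then 1 else 0 := by
  rw [yy, pderiv_X, Pi.single_apply]
  simp only [Fin.castAdd_inj]

theorem pd_NA (i : Fin (d + 1)) : pderiv (Fin.castAdd d i) (NA k d) = 0 := by
  simp [NA, Derivation.leibniz_pow, pd_u]

theorem pd_nat (v : Fin (d + 1 + d)) (n : ℕ) [n.AtLeastTwo] :
    pderiv v (ofNat(n) : A k d) = 0 :=
  Derivation.map_natCast _ n

theorem pd_τ0 : pderiv (Fin.castAdd d 0) (τ k d) = algebraMap k _ 4⁻¹ * (9 - 2 * y0 k d) := by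
  have h1 : pderiv (Fin.castAdd d 0) (PA k d) = 0 := by
    simp [PA, Derivation.leibniz, pd_u, pd_yy]
  simp only [τ, Derivation.leibniz, Derivation.map_algebraMap, smul_eq_mul, map_sub, map_add,
    Derivation.leibniz_pow, h1, pd_NA, pd_y0, pd_nat, if_true]
  ring

theorem pd_τs (l : Fin d) :
    pderiv (Fin.castAdd d l.succ) (τ k d) = algebraMap k _ 4⁻¹ * uu k d l := by
  have h1 : pderiv (Fin.castAdd d l.succ) (PA k d) = uu k d l := by
    simp [PA, Derivation.leibniz, pd_u, pd_yy]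
  simp only [τ, Derivation.leibniz, Derivation.map_algebraMap, smul_eq_mul, map_sub, map_add,
    Derivation.leibniz_pow, h1, pd_NA, pd_y0, pd_nat, if_neg (Fin.succ_ne_zero l).symm]
  ring

theorem pd_e0 (i : Fin (d + 1)) : pderiv (Fin.castAdd d i) (e0 k d) =
    (if 0 = i then 1 else 0) - 2 * τ k d * pderiv (Fin.castAdd d i) (τ k d) := by
  simp only [e0, map_sub, Derivation.leibniz_pow, pd_y0, smul_eq_mul]
  ring

theorem pd_ee (i : Fin (d + 1)) (j : Fin d) : pderiv (Fin.castAdd d i) (ee k d j) =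
    (if j.succ = i then 1 else 0) - uu k d j * pderiv (Fin.castAdd d i) (τ k d) := by
  simp only [ee, map_sub, Derivation.leibniz, pd_yy, pd_u, smul_eq_mul]
  ring

theorem pd_ei (i : Fin (d + 1)) : pderiv (Fin.castAdd d i) (ei k d) =
    (3 * τ k d ^ 2 + 4 * τ k d - 5) * pderiv (Fin.castAdd d i) (τ k d) := by
  simp only [ei, map_sub, map_add, Derivation.leibniz, Derivation.leibniz_pow, pd_nat, pd_NA,
    smul_eq_mul]
  ring

variable [CharZero k]

theorem bez : la k d * (9 - 2 * τ k d ^ 2) +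
    mu k d * (τ k d ^ 3 + 2 * τ k d ^ 2 - 5 * τ k d - 6) = τ k d - 1 := by
  have h := inv_nat k (A k d) 63
  simp only [la, mu]
  linear_combination (τ k d - 1) * h

theorem rel : (9 - 2 * τ k d ^ 2) * e0 k d + (PA k d - τ k d * NA k d) - (τ k d - 2) * ei k d =
    e0 k d ^ 2 := by
  have h := inv_nat k (A k d) 4
  have h1 : 4 * τ k d = PA k d - y0 k d ^ 2 + 9 * y0 k d - 2 * NA k d - 12 := by
    rw [τ]
    linear_combination (PA k d - y0 k d ^ 2 + 9 * y0 k d - 2 * NA k d - 12) * h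
  simp only [e0, ei]
  linear_combination -h1

noncomputable def FF : Fin (d + 1) → II k d :=
  Fin.cons ⟨e0 k d - la k d * ei k d,
      (II k d).sub_mem (e0_mem k d) ((II k d).mul_mem_left _ (ei_mem k d))⟩
    fun j => ⟨ee k d j - mu k d * uu k d j * ei k d,
      (II k d).sub_mem (ee_mem k d j) ((II k d).mul_mem_left _ (ei_mem k d))⟩

theorem sum_FF (n : Fin (d + 1) → A k d) : ((∑ i, n i • FF k d i : II k d) : A k d) =
    n 0 * e0 k d + ∑ j : Fin d, n j.succ * ee k d j -
      (n 0 * la k d + mu k d * ∑ j : Fin d, n j.succ * uu k d j) * ei k d := by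
  rw [AddSubmonoidClass.coe_finsetSum, Fin.sum_univ_succ]
  show n 0 * (e0 k d - la k d * ei k d) +
    ∑ j : Fin d, n j.succ * (ee k d j - mu k d * uu k d j * ei k d) = _
  have : ∑ j : Fin d, n j.succ * (ee k d j - mu k d * uu k d j * ei k d) =
      ∑ j : Fin d, n j.succ * ee k d j - mu k d * (∑ j : Fin d, n j.succ * uu k d j) * ei k d := by
    simp only [Finset.mul_sum, Finset.sum_mul, ← Finset.sum_sub_distrib]
    exact Finset.sum_congr rfl fun j _ => by ring
  rw [this]
  ring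

theorem cot_span :
    Submodule.span (A k d) (Set.range fun i => (II k d).toCotangent (FF k d i)) = ⊤ := by
  rw [eq_top_iff]
  rintro y -
  obtain ⟨w, rfl⟩ := (II k d).toCotangent_surjective y
  obtain ⟨c, hc⟩ := Ideal.mem_span_range_iff_exists_fun.mp ((gen_span k d).ge w.2)
  rw [Fin.sum_univ_succ, Fin.sum_univ_succ] at hc
  change c 0 * ei k d + (c (Fin.succ 0) * e0 k d + ∑ j : Fin d, c j.succ.succ * ee k d j) = w at hc
  rw [Submodule.mem_span_range_iff_exists_fun]
  set κ := c 0 + c (Fin.succ 0) * la k d + mu k d * ∑ j : Fin d, c j.succ.succ * uu k d j with hκ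
  refine ⟨Fin.cons (c (Fin.succ 0) - κ * (9 - 2 * τ k d ^ 2))
    fun j => c j.succ.succ - κ * uu k d j, ?_⟩
  simp only [← map_smul, ← map_sum]
  rw [Ideal.toCotangent_eq, sum_FF]
  simp only [Fin.cons_zero, Fin.cons_succ]
  have h1 : ∑ j : Fin d, (c j.succ.succ - κ * uu k d j) * ee k d j =
      ∑ j : Fin d, c j.succ.succ * ee k d j - κ * (PA k d - τ k d * NA k d) := by
    simp only [← sum_ee, Finset.mul_sum, ← Finset.sum_sub_distrib]
    exact Finset.sum_congr rfl fun j _ => by ring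
  have h2 : ∑ j : Fin d, (c j.succ.succ - κ * uu k d j) * uu k d j =
      ∑ j : Fin d, c j.succ.succ * uu k d j - κ * NA k d := by
    simp only [NA, Finset.mul_sum, ← Finset.sum_sub_distrib]
    exact Finset.sum_congr rfl fun j _ => by ring
  rw [h1, h2, ← hc]
  have hN : NA k d = τ k d ^ 3 + 2 * τ k d ^ 2 - 5 * τ k d - 6 - ei k d := by
    rw [ei]; ring
  have h3 : (c (Fin.succ 0) - κ * (9 - 2 * τ k d ^ 2)) * e0 k d +
      (∑ j : Fin d, c j.succ.succ * ee k d j - κ * (PA k d - τ k d * NA k d)) -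
      ((c (Fin.succ 0) - κ * (9 - 2 * τ k d ^ 2)) * la k d +
        mu k d * (∑ j : Fin d, c j.succ.succ * uu k d j - κ * NA k d)) * ei k d -
      (c 0 * ei k d + (c (Fin.succ 0) * e0 k d + ∑ j : Fin d, c j.succ.succ * ee k d j)) =
      -κ * e0 k d ^ 2 - κ * mu k d * ei k d ^ 2 := by
    linear_combination -κ * rel k d + κ * ei k d * bez k d + ei k d * hκ +
      κ * mu k d * ei k d * hN
  rw [h3]
  exact Ideal.sub_mem _ (Ideal.mul_mem_left _ _ (Ideal.pow_mem_pow (e0_mem k d) 2))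
    (Ideal.mul_mem_left _ _ (Ideal.pow_mem_pow (ei_mem k d) 2))

theorem cot_ind (hd0 : 0 < d) :
    LinearIndependent (A k d ⧸ II k d) fun i => (II k d).toCotangent (FF k d i) := by
  have := AdjoinRoot.isDomain_of_prime (hp_prime k d hd0)
  rw [Fintype.linearIndependent_iff]
  intro g hg
  choose n hn using fun i => Ideal.Quotient.mk_surjective (g i)
  have h1 : (II k d).toCotangent (∑ i, n i • FF k d i) = 0 := by
    rw [← hg, map_sum]
    refine Finset.sum_congr rfl fun i _ => ?_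
    rw [map_smul, ← hn i]
    rfl
  rw [Ideal.toCotangent_eq_zero, sum_FF] at h1
  have hsq : ∀ z ∈ II k d ^ 2, ∀ v, ρ k d (pderiv v z) = 0 := by
    intro z hz v
    rw [pow_two] at hz
    refine Submodule.mul_induction_on hz (fun a ha b hb => ?_) (fun a b ha hb => ?_)
    · have ha' : ρ k d a = 0 := ha
      have hb' : ρ k d b = 0 := hb
      simp [Derivation.leibniz, ha', hb']
    · rw [map_add, map_add, ha, hb, add_zero]
  have z0 : ρ k d (e0 k d) = 0 := e0_mem k d
  have zj : ∀ j, ρ k d (ee k d j) = 0 := ee_mem k d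
  have zi : ρ k d (ei k d) = 0 := ei_mem k d
  set T := AdjoinRoot.root (hp k d) with hT
  set U := ∑ j : Fin d, n j.succ * uu k d j with hU
  set κ : S k d := 2 * T * ρ k d (n 0) + ρ k d U +
    (ρ k d (n 0) * ρ k d (la k d) + ρ k d (mu k d) * ρ k d U) * (3 * T ^ 2 + 4 * T - 5) with hκ
  have key : ∀ i, ρ k d (n i) = κ * ρ k d (pderiv (Fin.castAdd d i) (τ k d)) := by
    intro i
    have h2 := hsq _ h1 (Fin.castAdd d i)
    have h3 : ρ k d (pderiv (Fin.castAdd d i) (∑ j : Fin d, n j.succ * ee k d j)) =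
        ∑ j : Fin d, ρ k d (n j.succ) * (if j.succ = i then 1 else 0) -
          ρ k d U * ρ k d (pderiv (Fin.castAdd d i) (τ k d)) := by
      simp only [hU, map_sum, Derivation.leibniz, smul_eq_mul, map_add, map_mul, zj, pd_ee,
        map_sub, apply_ite (ρ k d), map_one, map_zero, Finset.sum_mul, ← Finset.sum_sub_distrib]
      exact Finset.sum_congr rfl fun j _ => by ring
    have h4 : ρ k d (n 0) * (if 0 = i then 1 else 0) +
        ∑ j : Fin d, ρ k d (n j.succ) * (if j.succ = i then 1 else 0) = ρ k d (n i) := by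
      rw [← Fin.sum_univ_succ fun l => ρ k d (n l) * (if l = i then 1 else 0)]
      simp
    rw [map_sub, map_add, map_sub, map_add, h3] at h2
    simp only [Derivation.leibniz, smul_eq_mul, map_add, map_mul, z0, zi, pd_e0, pd_ei, map_sub,
      apply_ite (ρ k d), map_one, map_zero, map_pow, map_ofNat, ρ_τ, ← hT] at h2
    linear_combination h2 - h4
  have h4 := inv_nat k (S k d) 4
  set r : S k d := algebraMap k _ 4⁻¹
  have k0 : ρ k d (n 0) = κ * (r * (9 - 2 * T ^ 2)) := by
    rw [key, pd_τ0]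
    simp only [map_mul, map_sub, map_ofNat, AlgHom.commutes, ρ_y0, ← hT]
    rfl
  have kj : ∀ j : Fin d, ρ k d (n j.succ) = κ * (r * ρ k d (uu k d j)) := fun j => by
    rw [key, pd_τs, map_mul, AlgHom.commutes]
  have kU : ρ k d U = κ * r * (T ^ 3 + 2 * T ^ 2 - 5 * T - 6) := by
    rw [← ρ_NA, hU, NA]
    simp only [map_sum, map_mul, map_pow, kj, Finset.mul_sum]
    exact Finset.sum_congr rfl fun j _ => by ring
  have hb := congrArg (ρ k d) (bez k d)
  simp only [map_add, map_mul, map_sub, map_pow, map_ofNat, map_one, ρ_τ, ← hT] at hb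
  have hC : (3 * T ^ 2 + 4 * T - 5 : S k d) ≠ 0 := by
    have h5 := AdjoinRoot.mk_ne_zero_of_natDegree_lt (hp_monic k d)
      (g := 3 * Polynomial.X ^ 2 + 4 * Polynomial.X - 5) (fun h => by
        have := congrArg (Polynomial.coeff · 0) h
        simp at this) (by rw [hp_deg]; compute_degree!)
    simpa only [map_add, map_mul, map_sub, map_pow, map_ofNat, AdjoinRoot.mk_X] using h5
  have hκ0 : κ = 0 := by
    apply mul_right_cancel₀ hC
    rw [k0, kU] at hκ
    linear_combination (-4 : S k d) * hκ - 4 * κ * r * (3 * T ^ 2 + 4 * T - 5) * hb -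
      κ * (3 * T ^ 2 + 4 * T - 1) * h4
  intro i
  rw [← hn i, Ideal.Quotient.eq_zero_iff_mem]
  show ρ k d (n i) = 0
  rw [key, hκ0, zero_mul]

noncomputable def bas (hd0 : 0 < d) :
    Module.Basis (Fin (d + 1)) (A k d ⧸ II k d) (II k d).Cotangent :=
  Module.Basis.mk (cot_ind k d hd0)
    (Submodule.span_eq_top_of_span_eq_top (A k d) _ _ (cot_span k d)).ge

theorem mu_cot (hd0 : 0 < d) : sInf {m : ℕ | ∃ g : Fin m → (II k d).Cotangent,
    Submodule.span (A k d) (Set.range g) = ⊤} = d + 1 := by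
  have := Ideal.Quotient.nontrivial_iff.mpr (II_prime k d hd0).ne_top
  refine le_antisymm (Nat.sInf_le ⟨_, cot_span k d⟩) (le_csInf ⟨_, _, cot_span k d⟩ ?_)
  rintro m ⟨g, hg⟩
  have h1 := finrank_le_of_span_eq_top
    (Submodule.span_eq_top_of_span_eq_top (A k d) (A k d ⧸ II k d) _ hg)
  rwa [Module.finrank_eq_card_basis (bas k d hd0), Fintype.card_fin, Fintype.card_fin] at h1

end Pool.Agent.P.MP_260cc8_ag.Sh
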