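import Pool.Agent.Lib.Sob.Basic
import Pool.Agent.Lib.Brouwer.Core

/-!
The Jacobian determinant as a null Lagrangian, weights, homotopy invariance for smooth maps.
-/

open MeasureTheory Set Metric Filter Topology Module
open scoped ContDiff RealInnerProductSpace ENNReal Pointwise NNReal

namespace Pool.Agent.P.MP_260cc8_ag.Sh

abbrev E (n : ℕ) := EuclideanSpace ℝ (Fin n)

variable {n : ℕ}

theorem continuous_det_fderiv {F : E n → E n} (hF : ContDiff ℝ 1 F) :
    Continuous fun x => (fderiv ℝ F x).det :=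
  ContinuousLinearMap.continuous_det.comp (hF.continuous_fderiv one_ne_zero)

theorem nl_core {g : E n → E n} (hg : ContDiff ℝ 1 g) {B : Set (E n)} (hB : IsCompact B)
    (h0 : ∀ x ∉ B, g x = 0) : ∫ x in B, (1 + fderiv ℝ g x).det = volume.real B := by
  have hs : HasCompactSupport g := HasCompactSupport.intro hB h0
  have hBm := hB.measurableSet
  set D := fderiv ℝ g with hD
  have hDc : Continuous D := hg.continuous_fderiv one_ne_zero
  obtain ⟨L0, hL0⟩ := (hs.fderiv ℝ).exists_bound_of_continuous hDc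
  set L := max L0 1 with hL
  have hLpos : 0 < L := lt_of_lt_of_le one_pos (le_max_right _ _)
  have hDL : ∀ x, ‖D x‖ ≤ L := fun x => (hL0 x).trans (le_max_left _ _)
  have hgd : ∀ x, HasFDerivAt g (D x) x := fun x => (hg.differentiable one_ne_zero x).hasFDerivAt
  have hLip : ∀ x y, ‖g x - g y‖ ≤ L * ‖x - y‖ := fun x y =>
    convex_univ.norm_image_sub_le_of_norm_hasFDerivWithin_le
      (fun z _ => (hgd z).hasFDerivWithinAt) (fun z _ => hDL z) (mem_univ y) (mem_univ x)
  obtain ⟨δ, hδ, hδdet⟩ : ∃ δ > 0, ∀ A : E n →L[ℝ] E n, ‖A‖ < δ → 0 < (1 + A).det := by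
    have hc : ContinuousAt (fun A : E n →L[ℝ] E n => (1 + A).det) 0 :=
      (ContinuousLinearMap.continuous_det.comp (continuous_const.add continuous_id)).continuousAt
    have h0 : (0 : ℝ) < (fun A : E n →L[ℝ] E n => (1 + A).det) 0 := by
      simp [ContinuousLinearMap.det]
    have := hc.eventually (lt_mem_nhds h0)
    rw [Metric.eventually_nhds_iff] at this
    obtain ⟨δ, hδ, h⟩ := this
    exact ⟨δ, hδ, fun A hA => h (by simpa using hA)⟩
  set ε := min δ 1 / (2 * L) with hε
  have hεpos : 0 < ε := by positivity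
  have hεL : ε * L = min δ 1 / 2 := by rw [hε]; field_simp
  have hmin1 : min δ 1 ≤ 1 := min_le_right _ _
  have hminδ : min δ 1 ≤ δ := min_le_left _ _
  have hminpos : 0 < min δ 1 := lt_min hδ one_pos
  have hvol : ∀ t : ℝ, 0 ≤ t → t ≤ ε → ∫ x in B, (1 + t • D x).det = volume.real B := by
    intro t ht0 htε
    have htL : t * L ≤ min δ 1 / 2 := hεL ▸ mul_le_mul_of_nonneg_right htε hLpos.le
    let f : E n → E n := fun x => x + t • g x
    have hfd : ∀ x ∈ B, HasFDerivWithinAt f (1 + t • D x) B x := fun x _ =>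
      ((hasFDerivAt_id x).add ((hgd x).const_smul t)).hasFDerivWithinAt
    have hinj : Function.Injective f := by
      intro x y hxy
      have e1 : x - y = -(t • (g x - g y)) := by
        have : x + t • g x = y + t • g y := hxy
        rw [smul_sub]
        linear_combination (norm := module) this
      have e2 : ‖x - y‖ ≤ t * (L * ‖x - y‖) := by
        conv_lhs => rw [e1, norm_neg, norm_smul, Real.norm_eq_abs, abs_of_nonneg ht0]
        exact mul_le_mul_of_nonneg_left (hLip x y) ht0
      have e3 : ‖x - y‖ ≤ 0 := by nlinarith [norm_nonneg (x - y)]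
      exact sub_eq_zero.mp (norm_le_zero_iff.mp e3)
    have hfix : ∀ x ∉ B, f x = x := fun x hx => by simp [f, h0 x hx]
    have himg : f '' B = B := by
      apply Subset.antisymm
      · rintro _ ⟨x, hx, rfl⟩
        by_contra h
        exact h ((hinj (hfix _ h)).symm ▸ hx)
      · intro y hy
        let k : E n → E n := fun x => y - t • g x
        have hk : ContractingWith (1 / 2) k := by
          refine ⟨by norm_num, LipschitzWith.of_dist_le_mul fun a b => ?_⟩
          have e1 : k a - k b = -(t • (g a - g b)) := by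
            simp only [k, smul_sub]; abel
          rw [dist_eq_norm, dist_eq_norm, e1, norm_neg, norm_smul, Real.norm_eq_abs,
            abs_of_nonneg ht0]
          have e2 : t * ‖g a - g b‖ ≤ t * (L * ‖a - b‖) :=
            mul_le_mul_of_nonneg_left (hLip a b) ht0
          have e3 : ((1 / 2 : NNReal) : ℝ) = 1 / 2 := by norm_num
          rw [e3]
          nlinarith [norm_nonneg (a - b)]
        let x := ContractingWith.fixedPoint k hk
        have hx : k x = x := hk.fixedPoint_isFixedPt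
        have hfx : f x = y := by
          have : y - t • g x = x := hx
          simp only [f]
          linear_combination (norm := module) - this
        by_cases hxB : x ∈ B
        · exact ⟨x, hxB, hfx⟩
        · exact (hxB ((hfix x hxB).symm.trans hfx ▸ hy)).elim
    have hcv := integral_image_eq_integral_abs_det_fderiv_smul volume hBm hfd hinj.injOn
      (fun _ => (1 : ℝ))
    rw [himg] at hcv
    simp only [integral_const, MeasurableSet.univ, measureReal_restrict_apply, univ_inter,
      smul_eq_mul, mul_one] at hcv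
    rw [hcv]
    refine setIntegral_congr_fun hBm fun x _ => ?_
    refine (abs_of_pos (hδdet _ ?_)).symm
    rw [norm_smul, Real.norm_eq_abs, abs_of_nonneg ht0]
    have := mul_le_mul_of_nonneg_left (hDL x) ht0
    linarith
  let m := finrank ℝ (E n)
  let v : Fin (m + 1) → ℝ := fun j => ε * (j : ℕ) / (m + 1)
  have hv : Function.Injective v := by
    intro i j hij
    have hn : (0 : ℝ) < m + 1 := by positivity
    have : ((i : ℕ) : ℝ) = (j : ℕ) := by
      simp only [v] at hij
      field_simp at hij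
      exact hij
    exact Fin.ext (by exact_mod_cast this)
  obtain ⟨w, hw1, hw⟩ := Lib.Brouwer.det_interp (E := E n) v hv
  have hint : ∀ t : ℝ, IntegrableOn (fun x => (1 + t • D x).det) B := by
    intro t
    refine ContinuousOn.integrableOn_compact hB (Continuous.continuousOn ?_)
    exact ContinuousLinearMap.continuous_det.comp (continuous_const.add (hDc.const_smul t))
  have hw' : (fun x => (1 + D x).det) = fun x => ∑ j, w j * (1 + v j • D x).det :=
    funext fun x => hw _
  rw [hw', integral_finsetSum _ fun j _ => (hint (v j)).const_mul _]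
  have : ∀ j, ∫ x in B, w j * (1 + v j • D x).det = w j * volume.real B := by
    intro j
    rw [integral_const_mul, hvol _ (by positivity)]
    simp only [v]
    rw [div_le_iff₀ (by positivity)]
    have : ((j : ℕ) : ℝ) ≤ m + 1 := by exact_mod_cast j.2.le
    gcongr
  simp_rw [this]
  rw [← Finset.sum_mul, hw1, one_mul]

theorem nl {F G : E n → E n} (hF : ContDiff ℝ 1 F) (hG : ContDiff ℝ 1 G) {K : Set (E n)}
    (hK : IsCompact K) (h : ∀ x ∉ K, F x = G x) :
    ∫ x in K, (fderiv ℝ F x).det = ∫ x in K, (fderiv ℝ G x).det := by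
  obtain ⟨χ, hχ, h1, -⟩ := Lib.Sob.exists_cutoff hK isOpen_univ (subset_univ K)
  have hχ1 : ContDiff ℝ 1 χ := hχ.1.of_le (by simp)
  have hKB : K ⊆ tsupport χ := fun x hx =>
    subset_tsupport _ (by simp [(h1.filter_mono (nhds_le_nhdsSet hx)).self_of_nhds])
  have key : ∀ H : E n → E n, ContDiff ℝ 1 H → (∫ x in K, (fderiv ℝ H x).det) +
      ∫ x in tsupport χ \ K, (1 + fderiv ℝ (fun x => χ x • (H x - x)) x).det =
      volume.real (tsupport χ) := by
    intro H hH
    have hg : ContDiff ℝ 1 fun x => χ x • (H x - x) := hχ1.smul (hH.sub contDiff_id)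
    rw [← nl_core hg hχ.2.1 fun x hx => by simp [image_eq_zero_of_notMem_tsupport hx]]
    have hi : IntegrableOn (fun x => (1 + fderiv ℝ (fun x => χ x • (H x - x)) x).det)
        (tsupport χ) := ContinuousOn.integrableOn_compact hχ.2.1 (Continuous.continuousOn
      (ContinuousLinearMap.continuous_det.comp
        (continuous_const.add (hg.continuous_fderiv one_ne_zero))))
    rw [setIntegral_sdiff hK.measurableSet hi hKB]
    have : ∫ x in K, (fderiv ℝ H x).det =
        ∫ x in K, (1 + fderiv ℝ (fun x => χ x • (H x - x)) x).det := by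
      refine setIntegral_congr_fun hK.measurableSet fun x hx => ?_
      have e : (fun x => χ x • (H x - x)) =ᶠ[𝓝 x] fun x => H x - x := by
        filter_upwards [h1.filter_mono (nhds_le_nhdsSet hx)] with y hy
        simp [hy]
      have e2 : fderiv ℝ (fun x => H x - x) x = fderiv ℝ H x - 1 :=
        (((hH.differentiable one_ne_zero x).hasFDerivAt).sub (hasFDerivAt_id x)).fderiv
      simp only [e.fderiv_eq, e2, add_sub_cancel]
    rw [this]; ring
  have e : ∫ x in tsupport χ \ K, (1 + fderiv ℝ (fun x => χ x • (F x - x)) x).det =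
      ∫ x in tsupport χ \ K, (1 + fderiv ℝ (fun x => χ x • (G x - x)) x).det := by
    refine setIntegral_congr_fun ((isClosed_tsupport χ).measurableSet.diff hK.measurableSet)
      fun x hx => ?_
    have e : (fun x => χ x • (F x - x)) =ᶠ[𝓝 x] fun x => χ x • (G x - x) := by
      filter_upwards [hK.isClosed.isOpen_compl.mem_nhds hx.2] with y hy
      rw [h y hy]
    simp only [e.fderiv_eq]
  have a := key F hF
  have b := key G hG
  linarith

/-- Weights: probability densities near the origin that are multiples of Jacobians. -/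
structure Wt (r : ℝ) (ρ : E n → ℝ) : Prop where
  cont : Continuous ρ
  nonneg : ∀ y, 0 ≤ ρ y
  pos : 0 < ρ 0
  supp : ∀ y, r ≤ ‖y‖ → ρ y = 0
  int : ∫ y, ρ y = 1
  jac : ∃ (c : ℝ) (Θ : E n → E n), ContDiff ℝ 1 Θ ∧ ∀ y, ρ y = c * (fderiv ℝ Θ y).det

theorem exists_wt {r : ℝ} (hr : 0 < r) : ∃ ρ : E n → ℝ, Wt r ρ := by
  set ε := r / (n + 1) with hε
  have ε0 : 0 < ε := by positivity
  set b : ℝ → ℝ := fun s => max 0 (ε - |s|) with hb
  have bc : Continuous b := by fun_prop
  set P : ℝ → ℝ := fun s => ∫ t in (0 : ℝ)..s, b t with hP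
  have hPd : ∀ s, HasDerivAt P (b s) s := fun s => (bc.integral_hasStrictDerivAt 0 s).hasDerivAt
  have hP1 : ContDiff ℝ 1 P := by
    rw [contDiff_one_iff_deriv]
    exact ⟨fun s => (hPd s).differentiableAt, by
      rw [show deriv P = b from funext fun s => (hPd s).deriv]; exact bc⟩
  set Θ : E n → E n := fun y => WithLp.toLp 2 fun i => P (y i) with hΘ
  have hΘ1 : ContDiff ℝ 1 Θ := contDiff_euclidean.2 fun i => hP1.comp
    (EuclideanSpace.proj i : E n →L[ℝ] ℝ).contDiff
  have hdet : ∀ y, (fderiv ℝ Θ y).det = ∏ i, b (y i) := by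
    intro y
    have h1 : ∀ i, (EuclideanSpace.proj i : E n →L[ℝ] ℝ).comp (fderiv ℝ Θ y) =
        b (y i) • (EuclideanSpace.proj i : E n →L[ℝ] ℝ) := by
      intro i
      have a := (EuclideanSpace.proj i : E n →L[ℝ] ℝ).hasFDerivAt.comp y
        (hΘ1.differentiable one_ne_zero y).hasFDerivAt
      have c := (hPd (y i)).comp_hasFDerivAt y (EuclideanSpace.proj i : E n →L[ℝ] ℝ).hasFDerivAt
      exact a.unique c
    rw [ContinuousLinearMap.det, ← LinearMap.det_toMatrix (EuclideanSpace.basisFun (Fin n) ℝ).toBasis,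
      ← Matrix.det_diagonal]
    congr 1
    ext i j
    have := congrArg (fun A : E n →L[ℝ] ℝ => A (EuclideanSpace.single j 1)) (h1 i)
    simp only [ContinuousLinearMap.comp_apply, smul_apply, smul_eq_mul] at this
    simp only [LinearMap.toMatrix_apply, OrthonormalBasis.coe_toBasis,
      EuclideanSpace.basisFun_apply, OrthonormalBasis.coe_toBasis_repr_apply,
      EuclideanSpace.basisFun_repr, ContinuousLinearMap.coe_coe, Matrix.diagonal_apply]
    refine Eq.trans this ?_
    by_cases hij : i = j <;> simp [hij]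
  set ρ0 : E n → ℝ := fun y => ∏ i, b (y i) with hρ0
  have c0 : Continuous ρ0 := by fun_prop
  have n0 : ∀ y, 0 ≤ ρ0 y := fun y => Finset.prod_nonneg fun i _ => le_max_left _ _
  have p0 : 0 < ρ0 0 := Finset.prod_pos fun i _ => by simp [hb, ε0]
  have s0 : ∀ y, r ≤ ‖y‖ → ρ0 y = 0 := by
    intro y hy
    by_contra h
    have h1 : ∀ i, |y i| ≤ ε := by
      intro i
      by_contra h2
      exact h (Finset.prod_eq_zero (Finset.mem_univ i) (max_eq_left (by linarith)))
    have h2 : ‖y‖ ^ 2 ≤ n * ε ^ 2 := by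
      rw [EuclideanSpace.real_norm_sq_eq]
      calc ∑ i, y i ^ 2 ≤ ∑ _i : Fin n, ε ^ 2 := Finset.sum_le_sum fun i _ =>
            sq_le_sq' (abs_le.1 (h1 i)).1 (abs_le.1 (h1 i)).2
        _ = n * ε ^ 2 := by simp
    have h3 : r = (n + 1) * ε := by rw [hε]; field_simp
    have h4 : r ^ 2 ≤ ‖y‖ ^ 2 := by gcongr
    rw [h3] at h4
    have : (0 : ℝ) ≤ n := Nat.cast_nonneg n
    nlinarith [pow_pos ε0 2, mul_nonneg this this]
  have cs : HasCompactSupport ρ0 := HasCompactSupport.intro (isCompact_closedBall 0 r)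
    fun y hy => s0 y (by simpa using (not_le.1 (by simpa using hy)).le)
  have i0 : 0 < ∫ y, ρ0 y := c0.integral_pos_of_hasCompactSupport_nonneg_nonzero cs n0 p0.ne'
  refine ⟨fun y => (∫ y, ρ0 y)⁻¹ * ρ0 y, by fun_prop, fun y => mul_nonneg (by positivity) (n0 y),
    by positivity, fun y hy => by rw [s0 y hy, mul_zero], ?_, _, Θ, hΘ1, fun y => by rw [hdet]⟩
  rw [integral_const_mul, inv_mul_cancel₀ i0.ne']

theorem inv_smooth {r : ℝ} {ρ : E n → ℝ} (hρ : Wt r ρ) {w₀ w₁ : E n → E n}
    (h₀ : ContDiff ℝ 1 w₀) (h₁ : ContDiff ℝ 1 w₁) {K O : Set (E n)} (hK : IsCompact K)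
    (hO : IsOpen O) (hKO : K ⊆ O)
    (h : ∀ x ∈ O, x ∉ K → ∀ t ∈ Icc (0 : ℝ) 1, r ≤ ‖w₀ x + t • (w₁ x - w₀ x)‖) :
    ∫ x in K, ρ (w₀ x) * (fderiv ℝ w₀ x).det = ∫ x in K, ρ (w₁ x) * (fderiv ℝ w₁ x).det := by
  obtain ⟨c, Θ, hΘ, hc⟩ := hρ.jac
  obtain ⟨χ, hχ, h1, h01⟩ := Lib.Sob.exists_cutoff hK hO hKO
  have hχ1 : ContDiff ℝ 1 χ := hχ.1.of_le (by simp)
  have hKB : K ⊆ tsupport χ := fun x hx =>
    subset_tsupport _ (by simp [(h1.filter_mono (nhds_le_nhdsSet hx)).self_of_nhds])
  set w : E n → E n := fun x => w₀ x + χ x • (w₁ x - w₀ x) with hw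
  have hw1 : ContDiff ℝ 1 w := h₀.add (hχ1.smul (h₁.sub h₀))
  have hcomp : ∀ u : E n → E n, ContDiff ℝ 1 u → ∀ x,
      ρ (u x) * (fderiv ℝ u x).det = c * (fderiv ℝ (Θ ∘ u) x).det := by
    intro u hu x
    rw [fderiv_comp x (hΘ.differentiable one_ne_zero _) (hu.differentiable one_ne_zero _), hc,
      mul_assoc]
    congr 1
    exact (LinearMap.det_comp (fderiv ℝ Θ (u x) : E n →ₗ[ℝ] E n) (fderiv ℝ u x)).symm
  have hres : ∀ u : E n → E n, (∀ x ∈ tsupport χ, x ∉ K → r ≤ ‖u x‖) →
      ∫ x in tsupport χ, ρ (u x) * (fderiv ℝ u x).det =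
        ∫ x in K, ρ (u x) * (fderiv ℝ u x).det := by
    intro u hu
    refine setIntegral_eq_of_subset_of_forall_sdiff_eq_zero (isClosed_tsupport χ).measurableSet
      hKB fun x hx => ?_
    rw [hρ.supp _ (hu x hx.1 hx.2), zero_mul]
  have e := nl (hΘ.comp h₀) (hΘ.comp hw1) hχ.2.1 fun x hx => by
    simp [hw, image_eq_zero_of_notMem_tsupport hx]
  rw [← hres w₀ fun x hx hxK => by simpa using h x (hχ.2.2 hx) hxK 0 ⟨le_rfl, zero_le_one⟩]
  have e2 : ∫ x in K, ρ (w₁ x) * (fderiv ℝ w₁ x).det = ∫ x in K, ρ (w x) * (fderiv ℝ w x).det := by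
    refine setIntegral_congr_fun hK.measurableSet fun x hx => ?_
    have e : w =ᶠ[𝓝 x] w₁ := by
      filter_upwards [h1.filter_mono (nhds_le_nhdsSet hx)] with y hy
      simp [hw, hy]
    simp only [e.fderiv_eq, e.self_of_nhds]
  rw [e2, ← hres w fun x hx hxK => h x (hχ.2.2 hx) hxK _ (h01 x)]
  simp_rw [hcomp w₀ h₀, hcomp w hw1, integral_const_mul, e]

end Pool.Agent.P.MP_260cc8_ag.Sh
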