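import Mathlib

/-!
The variety `sum u_j^2 = (t+3)(t+1)(t-2)` embedded by `(t^2, t u, u)` in affine space of dimension
`2d+1`: its ideal is prime with `d+2` generators, and the quotient is smooth of dimension `d`.
-/

namespace Pool.Agent.P.MP_260cc8_ag.Sh

open Polynomial

variable (k : Type) [Field k] (d : ℕ)

abbrev A := MvPolynomial (Fin (d + 1 + d)) k

abbrev R := MvPolynomial (Fin d) k

noncomputable def y0 : A k d := MvPolynomial.X (Fin.castAdd d 0)

noncomputable def yy (j : Fin d) : A k d := MvPolynomial.X (Fin.castAdd d j.succ)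

noncomputable def uu (j : Fin d) : A k d := MvPolynomial.X (Fin.natAdd (d + 1) j)

noncomputable def NA : A k d := ∑ j, uu k d j ^ 2

noncomputable def PA : A k d := ∑ j, uu k d j * yy k d j

noncomputable def NR : R k d := ∑ j, MvPolynomial.X j ^ 2

noncomputable def hp : (R k d)[X] := X ^ 3 + 2 * X ^ 2 - 5 * X - 6 - C (NR k d)

abbrev S := AdjoinRoot (hp k d)

noncomputable def τ : A k d :=
  algebraMap k _ 4⁻¹ * (PA k d - y0 k d ^ 2 + 9 * y0 k d - 2 * NA k d - 12)

noncomputable def Φ : A k d →ₐ[k] (R k d)[X] :=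
  MvPolynomial.aeval (Fin.addCases (motive := fun _ => (R k d)[X])
    (Fin.cons (X ^ 2) fun j => X * C (MvPolynomial.X j)) fun j => C (MvPolynomial.X j))

noncomputable def mkS : (R k d)[X] →ₐ[k] S k d := (AdjoinRoot.mkₐ (hp k d)).restrictScalars k

noncomputable def ρ : A k d →ₐ[k] S k d := (mkS k d).comp (Φ k d)

noncomputable def II : Ideal (A k d) := RingHom.ker (ρ k d)

noncomputable def e0 : A k d := y0 k d - τ k d ^ 2

noncomputable def ee (j : Fin d) : A k d := yy k d j - τ k d * uu k d j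

noncomputable def ei : A k d := τ k d ^ 3 + 2 * τ k d ^ 2 - 5 * τ k d - 6 - NA k d

noncomputable def gens : Fin (d + 2) → A k d := Fin.cons (ei k d) (Fin.cons (e0 k d) (ee k d))

theorem mkS_apply (b : (R k d)[X]) : mkS k d b = AdjoinRoot.mk (hp k d) b := rfl

theorem ρ_apply (w : A k d) : ρ k d w = AdjoinRoot.mk (hp k d) (Φ k d w) := rfl

theorem mem_II {w : A k d} : w ∈ II k d ↔ hp k d ∣ Φ k d w := by
  rw [II, RingHom.mem_ker, ρ_apply, AdjoinRoot.mk_eq_zero]

theorem Φ_y0 : Φ k d (y0 k d) = X ^ 2 := by simp [Φ, y0]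

theorem Φ_yy (j : Fin d) : Φ k d (yy k d j) = X * C (MvPolynomial.X j) := by
  simp only [Φ, yy, MvPolynomial.aeval_X, Fin.addCases_left, Fin.cons_succ]

theorem Φ_uu (j : Fin d) : Φ k d (uu k d j) = C (MvPolynomial.X j) := by simp [Φ, uu]

theorem Φ_NA : Φ k d (NA k d) = C (NR k d) := by simp [NA, NR, Φ_uu]

theorem Φ_PA : Φ k d (PA k d) = X * C (NR k d) := by
  simp only [PA, NR, map_sum, map_mul, map_pow, Φ_uu, Φ_yy, Finset.mul_sum]
  exact Finset.sum_congr rfl fun j _ => by ring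

theorem hom_hp {T : Type} [CommRing T] (f : (R k d)[X] →+* T) :
    f (hp k d) = f X ^ 3 + 2 * f X ^ 2 - 5 * f X - 6 - f (C (NR k d)) := by
  simp only [hp, map_sub, map_add, map_mul, map_pow, map_ofNat]

theorem hp_monic : (hp k d).Monic := by
  unfold hp
  monicity!

theorem hp_deg : (hp k d).natDegree = 3 := by
  unfold hp
  compute_degree!

theorem inv_nat [CharZero k] (T : Type) [CommRing T] [Algebra k T] (n : ℕ) [n.AtLeastTwo] :
    (OfNat.ofNat n : T) * algebraMap k T (OfNat.ofNat n : k)⁻¹ = 1 := by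
  rw [← map_ofNat (algebraMap k T) n, ← map_mul, mul_inv_cancel₀ (OfNat.ofNat_ne_zero n), map_one]

theorem hp_prime (hd0 : 0 < d) : Prime (hp k d) := by
  rw [← UniqueFactorizationMonoid.irreducible_iff_prime,
    (hp_monic k d).irreducible_iff_roots_eq_zero_of_degree_le_three (by rw [hp_deg]; norm_num)
      (by rw [hp_deg]), Multiset.eq_zero_iff_forall_notMem]
  intro r hr
  have h1 : r ^ 3 + 2 * r ^ 2 - 5 * r - 6 - NR k d = 0 := by
    have := isRoot_of_mem_roots hr
    simpa [hp, IsRoot] using this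
  let ψ : R k d →ₐ[k] k[X] := MvPolynomial.aeval fun j => if j = ⟨0, hd0⟩ then X else 0
  have h2 : ψ (NR k d) = X ^ 2 := by
    simp [ψ, NR]
  have h3 : (ψ r + C 3) * (ψ r + C 1) * (ψ r + C (-2)) = X ^ 2 := by
    have := congrArg ψ h1
    simp only [map_sub, map_add, map_mul, map_pow, map_ofNat, h2, map_zero] at this
    simp only [map_neg, map_one, map_ofNat]
    linear_combination this
  have h4 : (X ^ 2 : k[X]) ≠ 0 := pow_ne_zero _ X_ne_zero
  rw [← h3] at h4
  have h5 := congrArg natDegree h3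
  rw [natDegree_mul (left_ne_zero_of_mul h4) (right_ne_zero_of_mul h4),
    natDegree_mul (left_ne_zero_of_mul (left_ne_zero_of_mul h4))
      (right_ne_zero_of_mul (left_ne_zero_of_mul h4)),
    natDegree_add_C, natDegree_add_C, natDegree_add_C, natDegree_X_pow] at h5
  omega

theorem dim_S : ringKrullDim (S k d) = d := by
  have h0 : ringKrullDim (R k d) = d := by
    simp [MvPolynomial.ringKrullDim_of_isNoetherianRing]
  have := (hp_monic k d).finite_adjoinRoot
  rw [← h0]
  apply le_antisymm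
  · refine Order.krullDim_le_of_strictMono (PrimeSpectrum.comap (algebraMap (R k d) (S k d))) ?_
    intro P Q hPQ
    exact Ideal.IsIntegral.comap_lt_comap (I := P.asIdeal) (J := Q.asIdeal) hPQ
  · refine iSup_le fun l => ?_
    have hinj : Function.Injective (algebraMap (R k d) (S k d)) :=
      AdjoinRoot.of.injective_of_degree_ne_zero (by
        rw [degree_eq_natDegree (hp_monic k d).ne_zero, hp_deg]; decide)
    obtain ⟨Q, -, hQ, hQ'⟩ := Ideal.exists_ideal_over_prime_of_isIntegral l.head.asIdeal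
      (⊥ : Ideal (S k d)) (by rw [Ideal.comap_bot_of_injective _ hinj]; exact bot_le)
    have : Q.LiesOver l.head.asIdeal := ⟨hQ'.symm⟩
    obtain ⟨L, hL, -⟩ := Ideal.exists_ltSeries_of_hasGoingUp l Q
    rw [← hL]
    exact Order.LTSeries.length_le_krullDim L

variable [CharZero k]

theorem Φ_τ : Φ k d (τ k d) = X - hp k d * (algebraMap k _ 4⁻¹ * (X - 2)) := by
  have h4 := inv_nat k (R k d)[X] 4
  simp only [τ, map_mul, AlgHom.commutes, map_sub, map_add, map_pow, map_ofNat, Φ_PA, Φ_NA, Φ_y0,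
    hp]
  linear_combination X * h4

theorem ρ_τ : ρ k d (τ k d) = AdjoinRoot.root (hp k d) := by
  rw [ρ_apply, Φ_τ, map_sub, map_mul, AdjoinRoot.mk_self, zero_mul, sub_zero, AdjoinRoot.mk_X]

omit [CharZero k] in
theorem ρ_y0 : ρ k d (y0 k d) = AdjoinRoot.root (hp k d) ^ 2 := by
  rw [ρ_apply, Φ_y0, map_pow, AdjoinRoot.mk_X]

omit [CharZero k] in
theorem ρ_yy (j : Fin d) : ρ k d (yy k d j) = AdjoinRoot.root (hp k d) * ρ k d (uu k d j) := by
  rw [ρ_apply, ρ_apply, Φ_yy, Φ_uu, map_mul, AdjoinRoot.mk_X]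

omit [CharZero k] in
theorem ρ_NA : ρ k d (NA k d) = AdjoinRoot.root (hp k d) ^ 3 + 2 * AdjoinRoot.root (hp k d) ^ 2 -
    5 * AdjoinRoot.root (hp k d) - 6 := by
  have h1 : AdjoinRoot.mk (hp k d) (X ^ 3 + 2 * X ^ 2 - 5 * X - 6 - C (NR k d)) = 0 :=
    AdjoinRoot.mk_self
  rw [ρ_apply, Φ_NA]
  simp only [map_sub, map_add, map_mul, map_pow, map_ofNat, AdjoinRoot.mk_X] at h1
  linear_combination -h1

theorem e0_mem : e0 k d ∈ II k d := by
  rw [II, RingHom.mem_ker, e0, map_sub, map_pow, ρ_τ, ρ_y0, sub_self]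

theorem ee_mem (j : Fin d) : ee k d j ∈ II k d := by
  rw [II, RingHom.mem_ker, ee, map_sub, map_mul, ρ_τ, ρ_yy, sub_self]

theorem ei_mem : ei k d ∈ II k d := by
  rw [II, RingHom.mem_ker, ei]
  simp only [map_sub, map_add, map_mul, map_pow, map_ofNat, ρ_τ, ρ_NA, sub_self]

noncomputable def σ : (R k d)[X] →+* A k d :=
  eval₂RingHom (MvPolynomial.aeval (uu k d) : R k d →ₐ[k] A k d).toRingHom (τ k d)

omit [CharZero k] in
theorem σ_X : σ k d X = τ k d := by simp [σ]

omit [CharZero k] in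
theorem σ_C (r : R k d) : σ k d (C r) = MvPolynomial.aeval (uu k d) r := by simp [σ]

theorem ρ_surj : Function.Surjective (ρ k d) := by
  intro y
  obtain ⟨b, rfl⟩ := AdjoinRoot.mk_surjective y
  refine ⟨σ k d b, ?_⟩
  have h1 : (Φ k d).comp (MvPolynomial.aeval (uu k d)) = CAlgHom := by
    ext1 j
    simp [Φ_uu]
  have h2 : (ρ k d).toRingHom.comp (σ k d) = AdjoinRoot.mk (hp k d) := by
    refine Polynomial.ringHom_ext (fun r => ?_) ?_
    · show ρ k d (σ k d (C r)) = _
      rw [σ_C, ρ_apply]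
      exact congrArg _ (DFunLike.congr_fun h1 r)
    · show ρ k d (σ k d X) = _
      rw [σ_X, ρ_τ, AdjoinRoot.mk_X]
  exact DFunLike.congr_fun h2 b

theorem gen_span : Ideal.span (Set.range (gens k d)) = II k d := by
  apply le_antisymm
  · rw [Ideal.span_le]
    rintro _ ⟨i, rfl⟩
    refine Fin.cases (ei_mem k d) (fun i => ?_) i
    exact Fin.cases (e0_mem k d) (fun j => ee_mem k d j) i
  · intro w hw
    obtain ⟨z, hz⟩ := (mem_II k d).mp hw
    set J := Ideal.span (Set.range (gens k d))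
    have hi : ei k d ∈ J := Ideal.subset_span ⟨0, rfl⟩
    have h0 : e0 k d ∈ J := Ideal.subset_span ⟨(0 : Fin (d + 1)).succ, rfl⟩
    have hj : ∀ j, ee k d j ∈ J := fun j => Ideal.subset_span ⟨j.succ.succ, rfl⟩
    have h1 : (Ideal.Quotient.mk J).comp ((σ k d).comp (Φ k d).toRingHom) =
        Ideal.Quotient.mk J := by
      refine MvPolynomial.ringHom_ext (fun c => ?_) fun i => ?_
      · show Ideal.Quotient.mk J (σ k d (Φ k d (algebraMap k _ c))) = _
        rw [AlgHom.commutes, Polynomial.algebraMap_apply, σ_C, AlgHom.commutes]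
        rfl
      · refine Fin.addCases (fun i => ?_) (fun j => ?_) i
        · refine Fin.cases ?_ (fun j => ?_) i
          · show Ideal.Quotient.mk J (σ k d (Φ k d (y0 k d))) = Ideal.Quotient.mk J (y0 k d)
            rw [Φ_y0, map_pow (σ k d), σ_X, eq_comm, Ideal.Quotient.eq]
            exact h0
          · show Ideal.Quotient.mk J (σ k d (Φ k d (yy k d j))) = Ideal.Quotient.mk J (yy k d j)
            rw [Φ_yy, map_mul (σ k d), σ_X, σ_C, MvPolynomial.aeval_X, eq_comm, Ideal.Quotient.eq]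
            exact hj j
        · show Ideal.Quotient.mk J (σ k d (Φ k d (uu k d j))) = Ideal.Quotient.mk J (uu k d j)
          rw [Φ_uu, σ_C, MvPolynomial.aeval_X]
    have h2 : σ k d (hp k d) = ei k d := by
      simp only [hp, ei, map_sub, map_add, map_mul, map_pow, map_ofNat, σ_X, σ_C, NR, NA, map_sum,
        MvPolynomial.aeval_X]
    have h3 : Ideal.Quotient.mk J (σ k d (Φ k d w)) = Ideal.Quotient.mk J w :=
      DFunLike.congr_fun h1 w
    rw [← Ideal.Quotient.eq_zero_iff_mem, ← h3, hz, map_mul (σ k d), h2,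
      Ideal.Quotient.eq_zero_iff_mem]
    exact J.mul_mem_right _ hi

noncomputable def eqv : (A k d ⧸ II k d) ≃ₐ[k] S k d :=
  Ideal.quotientKerAlgEquivOfSurjective (ρ_surj k d)

omit [CharZero k] in
theorem II_prime (hd0 : 0 < d) : (II k d).IsPrime := by
  have := AdjoinRoot.isDomain_of_prime (hp_prime k d hd0)
  exact RingHom.ker_isPrime _

theorem dim_II : ringKrullDim (A k d ⧸ II k d) = d := by
  rw [ringKrullDim_eq_of_ringEquiv (eqv k d).toRingEquiv, dim_S]

theorem smooth_S : Algebra.FormallySmooth k (S k d) := by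
  have : Algebra.FormallySmooth k (R k d)[X] := Algebra.FormallySmooth.comp k (R k d) _
  have h9 := inv_nat k (R k d)[X] 900
  set r : (R k d)[X] := algebraMap k _ 900⁻¹
  let J := RingHom.ker (mkS k d).toRingHom
  have hJ : hp k d ∈ J := AdjoinRoot.mk_self
  let α : (R k d)[X] := r * (-10 - 57 * X)
  let β : (R k d)[X] := r * (156 - 32 * X - 38 * X ^ 2)
  let q := Ideal.Quotient.mkₐ k (J ^ 2)
  let i : R k d →ₐ[k] (R k d)[X] :=
    MvPolynomial.aeval fun j => C (MvPolynomial.X j) * (1 + α * hp k d)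
  have hi : i (NR k d) = C (NR k d) * (1 + α * hp k d) ^ 2 := by
    simp only [i, NR, map_sum, map_pow, MvPolynomial.aeval_X, Finset.sum_mul, mul_pow]
  have hN : C (NR k d) = X ^ 3 + 2 * X ^ 2 - 5 * X - 6 - hp k d := by
    rw [hp]; ring
  have hg : (hp k d).eval₂ (q.comp i) (q (X + β * hp k d)) = 0 := by
    have h1 : (hp k d).eval₂ (q.comp i) (q (X + β * hp k d)) =
        q ((X + β * hp k d) ^ 3 + 2 * (X + β * hp k d) ^ 2 - 5 * (X + β * hp k d) - 6 -
          i (NR k d)) := by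
      have h0 := hom_hp k d (eval₂RingHom (q.comp i).toRingHom (q (X + β * hp k d)))
      simp only [coe_eval₂RingHom, eval₂_X, eval₂_C] at h0
      refine h0.trans ?_
      simp only [map_sub, map_add, map_mul, map_pow, map_ofNat]
      rfl
    rw [h1, hi, hN]
    have h2 : (X + β * hp k d) ^ 3 + 2 * (X + β * hp k d) ^ 2 - 5 * (X + β * hp k d) - 6 -
        (X ^ 3 + 2 * X ^ 2 - 5 * X - 6 - hp k d) * (1 + α * hp k d) ^ 2 =
        hp k d ^ 2 * ((3 * X + 2) * β ^ 2 + β ^ 3 * hp k d + 2 * α -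
          (X ^ 3 + 2 * X ^ 2 - 5 * X - 6 - hp k d) * α ^ 2) := by
      have h3 : (3 * X ^ 2 + 4 * X - 5) * β + 1 - 2 * α * (X ^ 3 + 2 * X ^ 2 - 5 * X - 6) = 0 := by
        simp only [α, β]
        linear_combination -h9
      linear_combination hp k d * h3
    rw [h2]
    exact Ideal.Quotient.eq_zero_iff_mem.mpr
      (Ideal.mul_mem_right _ _ (Ideal.pow_mem_pow hJ 2))
  refine Algebra.FormallySmooth.of_split (mkS k d)
    (AdjoinRoot.liftAlgHom (hp k d) (q.comp i) _ hg) ?_
  refine AdjoinRoot.algHom_ext' (MvPolynomial.algHom_ext fun j => ?_) ?_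
  · show (mkS k d).kerSquareLift (AdjoinRoot.liftAlgHom (hp k d) (q.comp i) _ hg
      (AdjoinRoot.of (hp k d) (MvPolynomial.X j))) = AdjoinRoot.of (hp k d) (MvPolynomial.X j)
    rw [AdjoinRoot.liftAlgHom_of]
    show mkS k d (i (MvPolynomial.X j)) = _
    simp [i, mkS_apply]
  · show (mkS k d).kerSquareLift (AdjoinRoot.liftAlgHom (hp k d) (q.comp i) _ hg
      (AdjoinRoot.root (hp k d))) = AdjoinRoot.root (hp k d)
    rw [AdjoinRoot.liftAlgHom_root]
    show mkS k d (X + β * hp k d) = _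
    simp [mkS_apply]

theorem smooth_II : Algebra.Smooth k (A k d ⧸ II k d) := by
  have := smooth_S k d
  exact ⟨Algebra.FormallySmooth.of_equiv (eqv k d).symm,
    Algebra.FinitePresentation.quotient (IsNoetherian.noetherian _)⟩

end Pool.Agent.P.MP_260cc8_ag.Sh
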