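import Pool.Agent.P.MP_260cc8_ag.ShBall
import Pool.Agent.P.MP_260cc8_ag.ShCot

/-!
Over a subfield of the reals and for even positive `d` the ideal cannot be generated by `d+1`
elements.
-/

namespace Pool.Agent.P.MP_260cc8_ag.Sh

open Polynomial

variable {k : Type} [Field k] (φ : k →+* ℝ) (d : ℕ)

noncomputable def ev (p : E (d + 1)) : (R k d)[X] →+* ℝ :=
  eval₂RingHom (MvPolynomial.eval₂Hom φ fun j => p j.succ) (p 0)

theorem ev_X (p : E (d + 1)) : ev φ d p X = p 0 := by simp [ev]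

theorem ev_C (p : E (d + 1)) (r : R k d) :
    ev φ d p (C r) = MvPolynomial.eval₂Hom φ (fun j => p j.succ) r := by
  simp only [ev, coe_eval₂RingHom, eval₂_C]

theorem ev_u (p : E (d + 1)) (j : Fin d) : ev φ d p (C (MvPolynomial.X j)) = p j.succ := by
  rw [ev_C, MvPolynomial.eval₂Hom_X']

theorem ev_hp (p : E (d + 1)) :
    ev φ d p (hp k d) = (p 0 + 3) * (p 0 + 1) * (p 0 - 2) - ∑ j : Fin d, p j.succ ^ 2 := by
  rw [hom_hp, ev_X]
  simp only [NR, map_sum, map_pow, ev_u]
  ring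

theorem contDiff_ev (b : (R k d)[X]) : ContDiff ℝ 1 fun p : E (d + 1) => ev φ d p b := by
  have hc : ∀ i, ContDiff ℝ 1 fun p : E (d + 1) => p i := fun i =>
    (EuclideanSpace.proj i : E (d + 1) →L[ℝ] ℝ).contDiff
  induction b using Polynomial.induction_on with
  | C r =>
    simp only [ev_C]
    induction r using MvPolynomial.induction_on with
    | C c => simpa using contDiff_const
    | add p q hp hq => simpa only [map_add] using hp.add hq
    | mul_X p i hp =>
      simp only [map_mul, MvPolynomial.eval₂Hom_X']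
      exact hp.mul (hc _)
  | add p q hp hq => simpa only [map_add] using hp.add hq
  | monomial n r h =>
    simp only [pow_succ, ← mul_assoc, map_mul (ev φ d _) _ X, ev_X]
    exact h.mul (hc 0)

def KK : Set (E (d + 1)) :=
  {p | ∑ j : Fin d, p j.succ ^ 2 ≤ (p 0 + 3) * (p 0 + 1) * (p 0 - 2) ∧ p 0 ≤ 0}

def UU : Set (E (d + 1)) :=
  {p | ∑ j : Fin d, p j.succ ^ 2 < (p 0 + 3) * (p 0 + 1) * (p 0 - 2) ∧ p 0 < 0}

theorem KK_bd {p : E (d + 1)} (h : p ∈ KK d) : -3 ≤ p 0 ∧ p 0 ≤ -1 := by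
  obtain ⟨h1, h2⟩ := h
  have h3 : 0 ≤ (p 0 + 3) * (p 0 + 1) * (p 0 - 2) :=
    (Finset.sum_nonneg fun j _ => sq_nonneg _).trans h1
  constructor
  · by_contra h4
    have : 0 < (p 0 + 3) * (p 0 + 1) := mul_pos_of_neg_of_neg (by linarith) (by linarith)
    nlinarith
  · by_contra h4
    have : 0 < (p 0 + 3) * (p 0 + 1) := mul_pos (by linarith) (by linarith)
    nlinarith

theorem KK_compact : IsCompact (KK d) := by
  refine Metric.isCompact_of_isClosed_isBounded ?_
    ((Metric.isBounded_closedBall (x := 0) (r := 10)).subset fun p h => ?_)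
  · have h1 : IsClosed {p : E (d + 1) |
        ∑ j : Fin d, p j.succ ^ 2 ≤ (p 0 + 3) * (p 0 + 1) * (p 0 - 2)} :=
      isClosed_le (by fun_prop) (by fun_prop)
    have h2 : IsClosed {p : E (d + 1) | p 0 ≤ 0} := isClosed_le (by fun_prop) (by fun_prop)
    exact h1.inter h2
  · obtain ⟨h1, h2⟩ := KK_bd d h
    rw [mem_closedBall_zero_iff]
    refine abs_le_of_sq_le_sq' ?_ (by norm_num) |>.2
    rw [EuclideanSpace.real_norm_sq_eq, Fin.sum_univ_succ]
    have h3 := h.1
    have h4 : (p 0 + 1) * (p 0 - 2) ≤ 10 := by nlinarith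
    nlinarith

theorem UU_open : IsOpen (UU d) := by
  have h1 : IsOpen {p : E (d + 1) |
      ∑ j : Fin d, p j.succ ^ 2 < (p 0 + 3) * (p 0 + 1) * (p 0 - 2)} :=
    isOpen_lt (by fun_prop) (by fun_prop)
  have h2 : IsOpen {p : E (d + 1) | p 0 < 0} := isOpen_lt (by fun_prop) (by fun_prop)
  exact h1.inter h2

include φ in
theorem not_gen (hd : Even d) (hd0 : 0 < d) (f : Fin (d + 1) → A k d) :
    Ideal.span (Set.range f) ≠ II k d := by
  intro hf
  have : CharZero k := φ.charZero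
  let j₀ : Fin d := ⟨0, hd0⟩
  have hfJ : ∀ i, f i ∈ II k d := fun i => hf.le (Ideal.subset_span ⟨i, rfl⟩)
  choose G hG using fun i => (mem_II k d).mp (hfJ i)
  have hz : ∀ w ∈ II k d, ∀ z, Φ k d w = hp k d * z →
      ∃ h : Fin (d + 1) → A k d, ∑ i, h i * f i = w ∧ ∑ i, Φ k d (h i) * G i = z := by
    intro w hw z hwz
    obtain ⟨h, hh⟩ := Ideal.mem_span_range_iff_exists_fun.mp (hf.ge hw)
    refine ⟨h, hh, mul_left_cancel₀ (hp_monic k d).ne_zero ?_⟩
    rw [← hwz, ← hh, map_sum, Finset.mul_sum]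
    exact Finset.sum_congr rfl fun i _ => by rw [map_mul, hG]; ring
  set m : (R k d)[X] := algebraMap k _ 4⁻¹ * (X - 2) with hm
  have hτ : Φ k d (τ k d) = X - hp k d * m := Φ_τ k d
  have hN : C (NR k d) = X ^ 3 + 2 * X ^ 2 - 5 * X - 6 - hp k d := by
    rw [hp]; ring
  set D : (R k d)[X] := X ^ 2 + X * (X - hp k d * m) + (X - hp k d * m) ^ 2 +
    2 * (X + (X - hp k d * m)) - 5 with hD
  obtain ⟨hi, -, hhi⟩ := hz _ (ei_mem k d) (1 - m * D) (by
    simp only [ei, map_sub, map_add, map_mul, map_pow, map_ofNat, hτ, Φ_NA, hN, hD]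
    ring)
  choose hj hhj using fun j => hz _ (ee_mem k d j) (m * C (MvPolynomial.X j)) (by
    simp only [ee, map_sub, map_mul, hτ, Φ_yy, Φ_uu]
    ring)
  have hw : Φ k d ((y0 k d - 9) * (y0 k d - 1) * (y0 k d - 4) - PA k d * (y0 k d - 5) -
      NA k d * (6 - 2 * y0 k d)) = hp k d * ((X - 3) * (X - 1) * (X + 2)) := by
    simp only [map_sub, map_mul, map_one, map_ofNat, Φ_y0, Φ_NA, Φ_PA, hN]
    ring
  obtain ⟨h0, -, hh0⟩ := hz _ ((mem_II k d).mpr ⟨_, hw⟩) _ hw
  let H : Fin (d + 1) → Fin (d + 1) → (R k d)[X] := Fin.cons (fun i => Φ k d (h0 i))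
    fun j i => D * Φ k d (hj j i) + C (MvPolynomial.X j) * Φ k d (hi i)
  have hHs : ∀ j : Fin d, ∑ i, H j.succ i * G i = C (MvPolynomial.X j) := by
    intro j
    have : ∑ i, H j.succ i * G i = D * ∑ i, Φ k d (hj j i) * G i +
        C (MvPolynomial.X j) * ∑ i, Φ k d (hi i) * G i := by
      simp only [Finset.mul_sum, ← Finset.sum_add_distrib, H, Fin.cons_succ]
      exact Finset.sum_congr rfl fun i _ => by ring
    rw [this, (hhj j).2, hhi]
    ring
  let g : E (d + 1) → E (d + 1) := fun p => WithLp.toLp 2 fun i => ev φ d p (G i)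
  let a : E (d + 1) → E (d + 1) := fun p => WithLp.toLp 2 fun i =>
    ev φ d p (Φ k d (MvPolynomial.pderiv (Fin.castAdd d j₀.succ) (f i)))
  have hg : ContDiff ℝ 1 g := contDiff_euclidean.mpr fun i => contDiff_ev φ d _
  have ha : ContDiff ℝ 1 a := contDiff_euclidean.mpr fun i => contDiff_ev φ d _
  let p₀ : E (d + 1) := WithLp.toLp 2 (Fin.cons (-2) fun _ => 0)
  let p₁ : E (d + 1) := WithLp.toLp 2 (Fin.cons 2 fun _ => 0)
  have a0 : p₀ 0 = -2 := rfl
  have as : ∀ j : Fin d, p₀ j.succ = 0 := fun j => rfl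
  have b0 : p₁ 0 = 2 := rfl
  have bs : ∀ j : Fin d, p₁ j.succ = 0 := fun j => rfl
  let n : Fin (d + 1) → E (d + 1) → ℝ :=
    Fin.cons (fun x => ev φ d x ((X - 3) * (X - 1))) fun _ _ => 1
  have n0 : ∀ x, n 0 x = (x 0 - 3) * (x 0 - 1) := fun x => by
    show ev φ d x ((X - 3) * (X - 1)) = _
    simp only [map_mul, map_sub, map_ofNat, map_one, ev_X]
  have hHg : ∀ (x : E (d + 1)) j, ∑ i, ev φ d x (H j i) * g x i = n j x * (x j - p₀ j) := by
    intro x j
    refine Fin.cases ?_ (fun j => ?_) j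
    · have h1 := congrArg (ev φ d x) hh0
      simp only [map_sum, map_mul, map_sub, map_add, map_ofNat, map_one, ev_X] at h1
      rw [n0, a0, sub_neg_eq_add]
      exact h1
    · have h1 := congrArg (ev φ d x) (hHs j)
      simp only [map_sum, map_mul, ev_u] at h1
      rw [as, sub_zero]
      exact h1.trans (one_mul _).symm
  have g0 : g p₀ = 0 := by
    ext i
    have h1 : (ev φ d p₀).comp (Φ k d).toRingHom = (ev φ d p₁).comp (Φ k d).toRingHom := by
      refine MvPolynomial.ringHom_ext (fun c => ?_) fun i => ?_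
      · show ev φ d p₀ (Φ k d (algebraMap k _ c)) = ev φ d p₁ (Φ k d (algebraMap k _ c))
        rw [AlgHom.commutes, Polynomial.algebraMap_apply, ev_C, ev_C]
        simp
      · refine Fin.addCases (fun i => ?_) (fun j => ?_) i
        · refine Fin.cases ?_ (fun j => ?_) i
          · show ev φ d p₀ (Φ k d (y0 k d)) = ev φ d p₁ (Φ k d (y0 k d))
            rw [Φ_y0, map_pow, map_pow, ev_X, ev_X, a0, b0]
            norm_num
          · show ev φ d p₀ (Φ k d (yy k d j)) = ev φ d p₁ (Φ k d (yy k d j))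
            rw [Φ_yy, map_mul, map_mul, ev_u, ev_u, as, bs, mul_zero, mul_zero]
        · show ev φ d p₀ (Φ k d (uu k d j)) = ev φ d p₁ (Φ k d (uu k d j))
          rw [Φ_uu, ev_u, ev_u, as, bs]
    have h2 : ev φ d p₀ (Φ k d (f i)) = ev φ d p₁ (Φ k d (f i)) := DFunLike.congr_fun h1 (f i)
    rw [hG, map_mul, map_mul, ev_hp, ev_hp] at h2
    simp only [a0, b0, as, bs] at h2
    show ev φ d p₀ (G i) = 0
    norm_num at h2
    exact h2
  have hne : ∀ x ∈ KK d, x ≠ p₀ → g x ≠ 0 := by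
    intro x hx hxp h1
    obtain ⟨h2, h3⟩ := KK_bd d hx
    apply hxp
    ext j
    have h4 := hHg x j
    simp only [h1, PiLp.zero_apply, mul_zero, Finset.sum_const_zero] at h4
    refine sub_eq_zero.mp ((mul_eq_zero.mp h4.symm).resolve_left ?_)
    refine Fin.cases ?_ (fun j => one_ne_zero) j
    rw [n0]
    exact (mul_pos_of_neg_of_neg (by linarith) (by linarith)).ne'
  have hp₀ : p₀ ∈ UU d := by
    simp only [UU, Set.mem_ofPred_eq, a0, as]
    norm_num
  obtain ⟨p, ⟨hpK, hpU⟩, c, hc⟩ := hairy_gen hd.add_one (KK_compact d) (UU_open d)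
    (fun x hx => ⟨hx.1.le, hx.2.le⟩) hp₀ hg ha g0 hne
    (det_ne hg (fun j i x => ev φ d x (H j i)) (fun j i => contDiff_ev φ d _) n
      (fun j => Fin.cases (contDiff_ev φ d _) (fun j => contDiff_const) j) g0
      (fun j => Fin.cases (by rw [n0, a0]; norm_num) (fun j => one_ne_zero) j) hHg)
  have ht := (KK_bd d hpK).2
  have hh : ev φ d p (hp k d) = 0 := by
    rw [ev_hp, sub_eq_zero]
    refine le_antisymm (not_lt.mp fun h1 => hpU ⟨h1, by linarith⟩) hpK.1
  obtain ⟨h, hE, hS⟩ := hz (2 * τ k d * ee k d j₀ - uu k d j₀ * e0 k d)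
    ((II k d).sub_mem ((II k d).mul_mem_left _ (ee_mem k d j₀))
      ((II k d).mul_mem_left _ (e0_mem k d))) (-(hp k d * (m ^ 2 * C (MvPolynomial.X j₀)))) (by
    simp only [ee, e0, map_sub, map_mul, map_pow, map_ofNat, hτ, Φ_yy, Φ_uu, Φ_y0]
    ring)
  let w : A k d →+* ℝ := (ev φ d p).comp (Φ k d).toRingHom
  have hw0 : ∀ z ∈ II k d, w z = 0 := by
    intro z hz
    obtain ⟨z', hz'⟩ := (mem_II k d).mp hz
    show ev φ d p (Φ k d z) = 0
    rw [hz', map_mul, hh, zero_mul]
  have hwτ : w (τ k d) = p 0 := by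
    show ev φ d p (Φ k d (τ k d)) = _
    rw [hτ, map_sub, map_mul, hh, zero_mul, sub_zero, ev_X]
  have hS' : ∑ i, w (h i) * ev φ d p (G i) = 0 := by
    have h1 := congrArg (ev φ d p) hS
    simp only [map_sum, map_mul, map_neg, hh, zero_mul, neg_zero] at h1
    exact h1
  have hc' : ∀ i, w (MvPolynomial.pderiv (Fin.castAdd d j₀.succ) (f i)) = c * ev φ d p (G i) :=
    fun i => congrArg (fun v : E (d + 1) => v i) hc
  have hd1 := congrArg (fun z => w (MvPolynomial.pderiv (Fin.castAdd d j₀.succ) z)) hE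
  simp only [map_sum, Derivation.leibniz, smul_eq_mul, map_add, map_mul, map_sub,
    hw0 _ (hfJ _), hw0 _ (ee_mem k d j₀), hw0 _ (e0_mem k d), hc', pd_ee, pd_e0, zero_mul,
    add_zero, if_true, if_neg (Fin.succ_ne_zero j₀).symm, map_one, map_zero, map_ofNat,
    hwτ] at hd1
  have h5 : ∑ i, w (h i) * (c * ev φ d p (G i)) = c * ∑ i, w (h i) * ev φ d p (G i) := by
    rw [Finset.mul_sum]
    exact Finset.sum_congr rfl fun i _ => by ring
  rw [h5, hS'] at hd1
  linarith

include φ in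
theorem II_map (K : Type) [Field K] [Algebra k K] :
    (II k d).map (MvPolynomial.map (algebraMap k K)) = II K d := by
  have : CharZero k := φ.charZero
  have : CharZero K := charZero_of_injective_algebraMap (algebraMap k K).injective
  have hτ : MvPolynomial.map (algebraMap k K) (τ k d) = τ K d := by
    simp only [τ, PA, NA, y0, yy, uu, map_mul, map_sub, map_add, map_pow, map_sum, map_ofNat,
      MvPolynomial.map_X, MvPolynomial.algebraMap_eq, MvPolynomial.map_C, map_inv₀]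
  rw [← gen_span, ← gen_span, Ideal.map_span, ← Set.range_comp]
  congr 2
  funext i
  refine Fin.cases ?_ (fun i => ?_) i
  · show MvPolynomial.map (algebraMap k K) (ei k d) = ei K d
    simp only [ei, NA, uu, map_mul, map_sub, map_add, map_pow, map_sum, map_ofNat, hτ,
      MvPolynomial.map_X]
  · refine Fin.cases ?_ (fun j => ?_) i
    · show MvPolynomial.map (algebraMap k K) (e0 k d) = e0 K d
      simp only [e0, y0, map_sub, map_pow, hτ, MvPolynomial.map_X]
    · show MvPolynomial.map (algebraMap k K) (ee k d j) = ee K d j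
      simp only [ee, yy, uu, map_sub, map_mul, hτ, MvPolynomial.map_X]

include φ in
theorem mu_II (hd : Even d) (hd0 : 0 < d) :
    sInf {m : ℕ | ∃ f : Fin m → A k d, Ideal.span (Set.range f) = II k d} = d + 2 := by
  have : CharZero k := φ.charZero
  refine le_antisymm (Nat.sInf_le ⟨_, gen_span k d⟩) (le_csInf ⟨_, _, gen_span k d⟩ ?_)
  rintro m ⟨f, hf⟩
  by_contra hm
  have hm' : m ≤ d + 1 := by omega
  apply not_gen φ d hd hd0 (fun i => if hi : (i : ℕ) < m then f ⟨i, hi⟩ else 0)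
  rw [← hf]
  apply le_antisymm
  · rw [Ideal.span_le]
    rintro _ ⟨i, rfl⟩
    dsimp only
    split_ifs with hi
    · exact Ideal.subset_span ⟨_, rfl⟩
    · exact Ideal.zero_mem _
  · rw [Ideal.span_le]
    rintro _ ⟨i, rfl⟩
    refine Ideal.subset_span ⟨⟨i, lt_of_lt_of_le i.2 hm'⟩, ?_⟩
    simp

end Pool.Agent.P.MP_260cc8_ag.Sh
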